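import Mathlib

/-!
The pointwise inequality along a line: for a function `u` with `p = h u'`, `s = h p'`, `q = h s'`
and `0 ≤ g ≤ 1`, `|∫_0^x g| ≤ δ`, the quantity `g(u) |s|^(3/2)` is, up to `7 √δ |q|` and small terms,
at most `h Ψ'` for a function `Ψ` with `|Ψ| ≤ 6 √δ |s|`.
-/

set_option autoImplicit false
open Real

namespace Pool.Agent.E8helper19.LW

noncomputable section

/-- the smoothed modulus -/
def Ef (κ s : ℝ) : ℝ := √(s ^ 2 + κ ^ 2)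

def Tf (κ s : ℝ) : ℝ := s ^ 2 / Ef κ s

def sg (κ p : ℝ) : ℝ := p / Ef κ p

def et (δ κ s : ℝ) : ℝ := √(δ * Ef κ s)

/-- the function `Ψ` in terms of the primitive `P = ∫_0^u g` -/
def Psi (δ κ P p s : ℝ) : ℝ :=
  1 / √δ * (P * sg κ p * Tf κ s) + √δ * (s * sg κ p) + 2 * √δ * (s * arctan (p / et δ κ s))

variable {δ κ : ℝ}

lemma Ef_pos (hκ : 0 < κ) (s : ℝ) : 0 < Ef κ s := by unfold Ef; positivity

lemma Ef_sq (s : ℝ) : Ef κ s ^ 2 = s ^ 2 + κ ^ 2 := by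
  unfold Ef; rw [sq_sqrt (by positivity)]

lemma abs_le_Ef (hκ : 0 < κ) (s : ℝ) : |s| ≤ Ef κ s := by
  unfold Ef
  rw [← sqrt_sq_eq_abs]
  exact sqrt_le_sqrt (by nlinarith)

lemma Ef_ge (hκ : 0 < κ) (s : ℝ) : κ ≤ Ef κ s := by
  unfold Ef
  rw [← sqrt_sq hκ.le]
  exact sqrt_le_sqrt (by rw [sqrt_sq hκ.le]; nlinarith)

lemma Ef_deriv (hκ : 0 < κ) (s : ℝ) : HasDerivAt (Ef κ) (s / Ef κ s) s := by
  have h1 : HasDerivAt (fun x : ℝ => x ^ 2 + κ ^ 2) (2 * s) s := by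
    simpa using (hasDerivAt_pow 2 s).add_const (κ ^ 2)
  have h2 := h1.sqrt (by positivity)
  unfold Ef
  convert h2 using 1
  field_simp

lemma Tf_nonneg (hκ : 0 < κ) (s : ℝ) : 0 ≤ Tf κ s := by
  have := Ef_pos hκ s
  unfold Tf; positivity

lemma Tf_le (hκ : 0 < κ) (s : ℝ) : Tf κ s ≤ |s| := by
  have h1 := Ef_pos hκ s
  have h2 := abs_le_Ef hκ s
  unfold Tf
  rw [div_le_iff₀ h1, ← sq_abs]
  nlinarith [abs_nonneg s]

lemma Tf_deriv (hκ : 0 < κ) (s : ℝ) :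
    HasDerivAt (Tf κ) (s * (s ^ 2 + 2 * κ ^ 2) / Ef κ s ^ 3) s := by
  have h1 := Ef_pos hκ s
  have h2 := (hasDerivAt_pow 2 s).fun_div (Ef_deriv hκ s) h1.ne'
  refine HasDerivAt.congr_deriv (f := Tf κ) h2 ?_
  have e := Ef_sq (κ := κ) s
  have e2 : s ^ 2 + 2 * κ ^ 2 = 2 * Ef κ s ^ 2 - s ^ 2 := by rw [e]; ring
  rw [e2]
  push_cast
  field_simp

lemma Tf_deriv_le (hκ : 0 < κ) (s : ℝ) : |s * (s ^ 2 + 2 * κ ^ 2) / Ef κ s ^ 3| ≤ 2 := by
  have h1 := Ef_pos hκ s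
  have h2 := abs_le_Ef hκ s
  have e := Ef_sq (κ := κ) s
  rw [abs_div, abs_mul, abs_of_pos (by positivity : 0 < s ^ 2 + 2 * κ ^ 2),
    abs_of_pos (by positivity : 0 < Ef κ s ^ 3), div_le_iff₀ (by positivity)]
  have h3 : s ^ 2 + 2 * κ ^ 2 ≤ 2 * Ef κ s ^ 2 := by rw [e]; nlinarith [sq_nonneg s]
  calc |s| * (s ^ 2 + 2 * κ ^ 2) ≤ Ef κ s * (2 * Ef κ s ^ 2) :=
        mul_le_mul h2 h3 (by positivity) h1.le
    _ = 2 * Ef κ s ^ 3 := by ring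

lemma sg_deriv (hκ : 0 < κ) (p : ℝ) : HasDerivAt (sg κ) (κ ^ 2 / Ef κ p ^ 3) p := by
  have h1 := Ef_pos hκ p
  have h2 := (hasDerivAt_id' p).fun_div (Ef_deriv hκ p) h1.ne'
  refine HasDerivAt.congr_deriv (f := sg κ) h2 ?_
  have e := Ef_sq (κ := κ) p
  have e2 : κ ^ 2 = Ef κ p ^ 2 - p ^ 2 := by rw [e]; ring
  rw [e2]
  field_simp

lemma sg_abs (hκ : 0 < κ) (p : ℝ) : |sg κ p| ≤ 1 := by
  have h1 := Ef_pos hκ p
  unfold sg
  rw [abs_div, abs_of_pos h1, div_le_one h1]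
  exact abs_le_Ef hκ p

lemma sg_mul (hκ : 0 < κ) (p : ℝ) : |p| ≤ p * sg κ p + κ := by
  have h1 := Ef_pos hκ p
  have e := Ef_sq (κ := κ) p
  unfold sg
  have h3 : Ef κ p ≤ |p| + κ := by
    have : Ef κ p ^ 2 ≤ (|p| + κ) ^ 2 := by
      rw [e, add_sq, sq_abs]; nlinarith [abs_nonneg p]
    exact le_of_sq_le_sq this (by positivity)
  rw [← mul_div_assoc, ← sub_le_iff_le_add, le_div_iff₀ h1]
  rcases le_total (|p|) κ with h | h
  · have : (|p| - κ) * Ef κ p ≤ 0 := mul_nonpos_of_nonpos_of_nonneg (by linarith) h1.le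
    nlinarith [mul_self_nonneg p]
  · have : (|p| - κ) * Ef κ p ≤ (|p| - κ) * (|p| + κ) :=
      mul_le_mul_of_nonneg_left h3 (by linarith)
    have e2 : (|p| - κ) * (|p| + κ) = p * p - κ ^ 2 := by
      have := abs_mul_abs_self p
      nlinarith
    nlinarith

lemma et_pos (hδ : 0 < δ) (hκ : 0 < κ) (s : ℝ) : 0 < et δ κ s := by
  have h1 := Ef_pos hκ s
  unfold et; positivity

lemma et_sq (hδ : 0 < δ) (hκ : 0 < κ) (s : ℝ) : et δ κ s ^ 2 = δ * Ef κ s := by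
  have h1 := Ef_pos hκ s
  unfold et; rw [sq_sqrt (by positivity)]

lemma et_deriv (hδ : 0 < δ) (hκ : 0 < κ) (s : ℝ) :
    HasDerivAt (et δ κ) (δ * s / (2 * et δ κ s * Ef κ s)) s := by
  have h1 := Ef_pos hκ s
  have h2 := ((Ef_deriv hκ s).const_mul δ).sqrt (by positivity)
  unfold et
  convert h2 using 1
  field_simp

/-- the pointwise inequality for `arctan` -/
lemma part1 (hδ : 0 < δ) (hκ : 0 < κ) {h : ℝ} (hh : 0 < h) {p s : ℝ → ℝ} {q t : ℝ}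
    (hp : HasDerivAt p (s t / h) t) (hs : HasDerivAt s (q / h) t) :
    ∃ d, HasDerivAt (fun x => s x * arctan (p x / et δ κ (s x))) d t ∧
      (s t) ^ 2 * et δ κ (s t) / (et δ κ (s t) ^ 2 + p t ^ 2) ≤ h * d + 2 * |q| := by
  obtain ⟨E, hE⟩ : ∃ E, E = Ef κ (s t) := ⟨_, rfl⟩
  obtain ⟨η, hη⟩ : ∃ η, η = et δ κ (s t) := ⟨_, rfl⟩
  have E0 : 0 < E := by rw [hE]; exact Ef_pos hκ _
  have η0 : 0 < η := by rw [hη]; exact et_pos hδ hκ _
  have ηq : η ^ 2 = δ * E := by rw [hη, hE]; exact et_sq hδ hκ _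
  have sE : |s t| ≤ E := by rw [hE]; exact abs_le_Ef hκ _
  have de : HasDerivAt (fun x => et δ κ (s x)) (δ * s t / (2 * η * E) * (q / h)) t := by
    have := (et_deriv hδ hκ (s t)).comp t hs
    rw [← hη, ← hE] at this
    exact this
  have dd := hs.fun_mul ((hp.fun_div de (by rw [← hη]; exact η0.ne')).arctan)
  refine ⟨_, dd, ?_⟩
  simp only [← hη]
  obtain ⟨S, hS⟩ : ∃ S, S = s t := ⟨_, rfl⟩
  obtain ⟨P, hP⟩ : ∃ P, P = p t := ⟨_, rfl⟩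
  rw [← hS, ← hP]
  rw [← hS] at sE
  have D0 : 0 < η ^ 2 + P ^ 2 := by positivity
  have key : h * (q / h * arctan (P / η) + S * (1 / (1 + (P / η) ^ 2) *
      ((S / h * η - P * (δ * S / (2 * η * E) * (q / h))) / η ^ 2))) =
      q * arctan (P / η) + S ^ 2 * η / (η ^ 2 + P ^ 2) -
        (S ^ 2 * P * δ * q) / (2 * η * E * (η ^ 2 + P ^ 2)) := by
    have : 1 + (P / η) ^ 2 = (η ^ 2 + P ^ 2) / η ^ 2 := by field_simp
    rw [this]
    field_simp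
    ring
  rw [key]
  have a1 : -(q * arctan (P / η)) ≤ (8 / 5) * |q| := by
    have h1 : |arctan (P / η)| ≤ π / 2 := by
      rw [abs_le]; exact ⟨(neg_pi_div_two_lt_arctan _).le, (arctan_lt_pi_div_two _).le⟩
    have h2 : |q * arctan (P / η)| ≤ |q| * (π / 2) := by
      rw [abs_mul]; exact mul_le_mul_of_nonneg_left h1 (abs_nonneg _)
    have h3 := neg_le_abs (q * arctan (P / η))
    have h4 : |q| * (π / 2) ≤ (8 / 5) * |q| := by
      have := pi_lt_d2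
      nlinarith [abs_nonneg q]
    linarith
  have a2 : (S ^ 2 * P * δ * q) / (2 * η * E * (η ^ 2 + P ^ 2)) ≤ |q| / 4 := by
    rw [div_le_iff₀ (by positivity)]
    have h1 : S ^ 2 * P * δ * q ≤ S ^ 2 * δ * (|P| * |q|) := by
      have : P * q ≤ |P| * |q| := by rw [← abs_mul]; exact le_abs_self _
      have h0 : 0 ≤ S ^ 2 * δ := by positivity
      nlinarith
    have h2 : 2 * η * |P| ≤ η ^ 2 + P ^ 2 := by
      rw [← sq_abs P]; nlinarith [sq_nonneg (η - |P|)]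
    have h3 : S ^ 2 ≤ E ^ 2 := by
      rw [← sq_abs S]; exact pow_le_pow_left₀ (abs_nonneg _) sE 2
    have h4 : |q| / 4 * (2 * η * E * (η ^ 2 + P ^ 2)) ≥ |q| / 4 * (2 * η * E * (2 * η * |P|)) := by
      refine mul_le_mul_of_nonneg_left (mul_le_mul_of_nonneg_left h2 (by positivity)) (by positivity)
    have h5 : |q| / 4 * (2 * η * E * (2 * η * |P|)) = E ^ 2 * δ * (|P| * |q|) := by
      have : |q| / 4 * (2 * η * E * (2 * η * |P|)) = η ^ 2 * (E * |P| * |q|) := by ring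
      rw [this, ηq]; ring
    have h6 : S ^ 2 * δ * (|P| * |q|) ≤ E ^ 2 * δ * (|P| * |q|) := by
      have : 0 ≤ δ * (|P| * |q|) := by positivity
      nlinarith
    linarith
  have := abs_nonneg q
  linarith

/-- the pointwise inequality for the sign -/
lemma part3 (hκ : 0 < κ) {h : ℝ} (hh : 0 < h) {p s : ℝ → ℝ} {q t : ℝ}
    (hp : HasDerivAt p (s t / h) t) (hs : HasDerivAt s (q / h) t) :
    ∃ d, HasDerivAt (fun x => s x * sg κ (p x)) d t ∧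
      κ ^ 2 / Ef κ (p t) ^ 3 * s t ^ 2 ≤ h * d + |q| := by
  have dd := hs.fun_mul ((sg_deriv hκ (p t)).comp t hp)
  refine ⟨_, dd, ?_⟩
  have key : h * (q / h * sg κ (p t) + s t * (κ ^ 2 / Ef κ (p t) ^ 3 * (s t / h))) =
      q * sg κ (p t) + κ ^ 2 / Ef κ (p t) ^ 3 * s t ^ 2 := by
    field_simp
  show _ ≤ h * (q / h * sg κ (p t) + s t * (κ ^ 2 / Ef κ (p t) ^ 3 * (s t / h))) + |q|
  rw [key]
  have h1 : |q * sg κ (p t)| ≤ |q| := by
    rw [abs_mul]; exact mul_le_of_le_one_right (abs_nonneg _) (sg_abs hκ _)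
  have := neg_le_abs (q * sg κ (p t))
  linarith

/-- the pointwise inequality for the primitive -/
lemma part2 (hκ : 0 < κ) {h : ℝ} (hh : 0 < h) {P p s : ℝ → ℝ} {q t G : ℝ}
    (hP : HasDerivAt P (G * (p t / h)) t)
    (hp : HasDerivAt p (s t / h) t) (hs : HasDerivAt s (q / h) t) (hPδ : |P t| ≤ δ)
    (G0 : 0 ≤ G) (G1 : G ≤ 1) :
    ∃ d, HasDerivAt (fun x => P x * sg κ (p x) * Tf κ (s x)) d t ∧
      G * (|p t| * Tf κ (s t)) ≤ h * d + δ * (κ ^ 2 / Ef κ (p t) ^ 3 * s t ^ 2) + 2 * δ * |q| +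
        κ * |s t| := by
  have dd := (hP.fun_mul ((sg_deriv hκ (p t)).comp t hp)).fun_mul ((Tf_deriv hκ (s t)).comp t hs)
  refine ⟨_, dd, ?_⟩
  obtain ⟨σ, hσ⟩ : ∃ σ, σ = sg κ (p t) := ⟨_, rfl⟩
  obtain ⟨T, hT⟩ : ∃ T, T = Tf κ (s t) := ⟨_, rfl⟩
  obtain ⟨T', hT'⟩ : ∃ T', T' = s t * (s t ^ 2 + 2 * κ ^ 2) / Ef κ (s t) ^ 3 := ⟨_, rfl⟩
  obtain ⟨σ', hσ'⟩ : ∃ σ', σ' = κ ^ 2 / Ef κ (p t) ^ 3 := ⟨_, rfl⟩
  show _ ≤ h * ((G * (p t / h) * sg κ (p t) + P t * (κ ^ 2 / Ef κ (p t) ^ 3 * (s t / h))) *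
    Tf κ (s t) + P t * sg κ (p t) *
      (s t * (s t ^ 2 + 2 * κ ^ 2) / Ef κ (s t) ^ 3 * (q / h))) +
      δ * (κ ^ 2 / Ef κ (p t) ^ 3 * s t ^ 2) + 2 * δ * |q| + κ * |s t|
  rw [← hσ, ← hT, ← hT', ← hσ']
  have σ1 : |σ| ≤ 1 := by rw [hσ]; exact sg_abs hκ _
  have T0 : 0 ≤ T := by rw [hT]; exact Tf_nonneg hκ _
  have T1 : T ≤ |s t| := by rw [hT]; exact Tf_le hκ _
  have T'1 : |T'| ≤ 2 := by rw [hT']; exact Tf_deriv_le hκ _
  have σ0 : 0 ≤ σ' := by have := Ef_pos hκ (p t); rw [hσ']; positivity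
  have δ0 : 0 ≤ δ := (abs_nonneg _).trans hPδ
  have key : h * ((G * (p t / h) * σ + P t * (σ' * (s t / h))) * T + P t * σ * (T' * (q / h))) =
      G * (p t * σ) * T + P t * (σ' * s t * T) + P t * σ * T' * q := by
    field_simp
  rw [key]
  have b1 : G * (|p t| * T) ≤ G * (p t * σ) * T + κ * |s t| := by
    have h1 : |p t| ≤ p t * σ + κ := by rw [hσ]; exact sg_mul hκ _
    have h2 : G * (|p t| * T) ≤ G * ((p t * σ + κ) * T) :=
      mul_le_mul_of_nonneg_left (mul_le_mul_of_nonneg_right h1 T0) G0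
    have h3 : G * (κ * T) ≤ κ * |s t| := by
      calc G * (κ * T) ≤ 1 * (κ * T) := mul_le_mul_of_nonneg_right G1 (by positivity)
        _ ≤ κ * |s t| := by rw [one_mul]; exact mul_le_mul_of_nonneg_left T1 hκ.le
    nlinarith
  have b2 : -(P t * (σ' * s t * T)) ≤ δ * (σ' * s t ^ 2) := by
    refine (neg_le_abs _).trans ?_
    rw [abs_mul, abs_mul, abs_mul, abs_of_nonneg σ0, abs_of_nonneg T0]
    refine mul_le_mul hPδ ?_ (by positivity) δ0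
    calc σ' * |s t| * T ≤ σ' * |s t| * |s t| := mul_le_mul_of_nonneg_left T1 (by positivity)
      _ = σ' * s t ^ 2 := by rw [← sq_abs (s t)]; ring
  have b3 : -(P t * σ * T' * q) ≤ 2 * δ * |q| := by
    refine (neg_le_abs _).trans ?_
    rw [abs_mul, abs_mul, abs_mul]
    have h1 : |P t| * |σ| ≤ δ * 1 := mul_le_mul hPδ σ1 (abs_nonneg _) δ0
    have h2 : |P t| * |σ| * |T'| ≤ δ * 1 * 2 := mul_le_mul h1 T'1 (abs_nonneg _) (by positivity)
    have h3 := mul_le_mul_of_nonneg_right h2 (abs_nonneg q)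
    linarith
  linarith

/-- **The inequality along a line.** -/
theorem line_ineq (hδ : 0 < δ) (hκ : 0 < κ) {h : ℝ} (hh : 0 < h) {P p s : ℝ → ℝ} {q t G : ℝ}
    (hP : HasDerivAt P (G * (p t / h)) t)
    (hp : HasDerivAt p (s t / h) t) (hs : HasDerivAt s (q / h) t) (hPδ : |P t| ≤ δ)
    (G0 : 0 ≤ G) (G1 : G ≤ 1) :
    ∃ d, HasDerivAt (fun x => Psi δ κ (P x) (p x) (s x)) d t ∧
      G * (s t ^ 2 / √(Ef κ (s t))) ≤ h * d + 7 * √δ * |q| + κ / √δ * |s t| := by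
  obtain ⟨d1, D1, e1⟩ := part1 hδ hκ hh hp hs
  obtain ⟨d2, D2, e2⟩ := part2 hκ hh hP hp hs hPδ G0 G1
  obtain ⟨d3, D3, e3⟩ := part3 hκ hh hp hs
  refine ⟨1 / √δ * d2 + √δ * d3 + 2 * √δ * d1,
    ((D2.const_mul (1 / √δ)).add (D3.const_mul (√δ))).add (D1.const_mul (2 * √δ)), ?_⟩
  obtain ⟨E, hE⟩ : ∃ E, E = Ef κ (s t) := ⟨_, rfl⟩
  obtain ⟨η, hη⟩ : ∃ η, η = et δ κ (s t) := ⟨_, rfl⟩
  obtain ⟨T, hT⟩ : ∃ T, T = Tf κ (s t) := ⟨_, rfl⟩
  have E0 : 0 < E := by rw [hE]; exact Ef_pos hκ _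
  have hη2 : η = √δ * √E := by rw [hη, hE]; unfold et; rw [sqrt_mul hδ.le]
  have hT2 : T = s t ^ 2 / E := by rw [hT, hE]; rfl
  rw [← hη] at e1
  rw [← hT] at e2
  rw [← hE]
  obtain ⟨r, hr⟩ : ∃ r, r = √δ := ⟨_, rfl⟩
  obtain ⟨w, hw⟩ : ∃ w, w = √E := ⟨_, rfl⟩
  have r0 : 0 < r := by rw [hr]; positivity
  have w0 : 0 < w := by rw [hw]; positivity
  have rr : r ^ 2 = δ := by rw [hr, sq_sqrt hδ.le]
  have ww : w ^ 2 = E := by rw [hw, sq_sqrt E0.le]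
  rw [← hr, ← hw] at hη2
  rw [← hr, ← hw]
  have η0 : 0 < η := by rw [hη2]; positivity
  -- the elementary inequality
  have c1 : G ≤ G * |p t| / η + 2 * η ^ 2 / (η ^ 2 + p t ^ 2) := by
    have D0 : 0 < η ^ 2 + p t ^ 2 := by positivity
    rcases le_total η (|p t|) with h1 | h1
    · have : G ≤ G * |p t| / η := by
        rw [le_div_iff₀ η0]; exact mul_le_mul_of_nonneg_left h1 G0
      have : 0 ≤ 2 * η ^ 2 / (η ^ 2 + p t ^ 2) := by positivity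
      linarith
    · have h2 : p t ^ 2 ≤ η ^ 2 := by
        rw [← sq_abs (p t)]; exact pow_le_pow_left₀ (abs_nonneg _) h1 2
      have : 1 ≤ 2 * η ^ 2 / (η ^ 2 + p t ^ 2) := by
        rw [le_div_iff₀ D0]; linarith
      have : 0 ≤ G * |p t| / η := by positivity
      linarith
  have c2 := mul_le_mul_of_nonneg_right c1 (by positivity : 0 ≤ s t ^ 2 / w)
  have c3 : (G * |p t| / η + 2 * η ^ 2 / (η ^ 2 + p t ^ 2)) * (s t ^ 2 / w) =
      1 / r * (G * (|p t| * T)) + 2 * r * (s t ^ 2 * η / (η ^ 2 + p t ^ 2)) := by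
    have D0 : η ^ 2 + p t ^ 2 ≠ 0 := by positivity
    have e5 : G * |p t| / η * (s t ^ 2 / w) = 1 / r * (G * (|p t| * T)) := by
      rw [hT2, hη2, ← ww]; field_simp
    have e6 : 2 * η ^ 2 / (η ^ 2 + p t ^ 2) * (s t ^ 2 / w) =
        2 * r * (s t ^ 2 * η / (η ^ 2 + p t ^ 2)) := by
      have : η / w = r := by rw [hη2]; field_simp
      rw [← this]; field_simp
    rw [add_mul, e5, e6]
  rw [c3] at c2
  have c4 := mul_le_mul_of_nonneg_left e2 (by positivity : 0 ≤ 1 / r)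
  have c5 := mul_le_mul_of_nonneg_left e3 r0.le
  have c6 := mul_le_mul_of_nonneg_left e1 (by positivity : 0 ≤ 2 * r)
  have c7 : 1 / r * (h * d2 + δ * (κ ^ 2 / Ef κ (p t) ^ 3 * s t ^ 2) + 2 * δ * |q| + κ * |s t|) =
      1 / r * d2 * h + r * (κ ^ 2 / Ef κ (p t) ^ 3 * s t ^ 2) + 2 * r * |q| + κ / r * |s t| := by
    rw [← rr]; field_simp
  rw [c7] at c4
  linarith

/-- `|Ψ| ≤ 6 √δ |s|` -/
lemma Psi_le (hδ : 0 < δ) (hκ : 0 < κ) {P : ℝ} (hP : |P| ≤ δ) (p s : ℝ) :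
    |Psi δ κ P p s| ≤ 6 * √δ * |s| := by
  have r0 : 0 < √δ := by positivity
  have rr : √δ ^ 2 = δ := sq_sqrt hδ.le
  have a1 : |1 / √δ * (P * sg κ p * Tf κ s)| ≤ √δ * |s| := by
    rw [abs_mul, abs_mul, abs_mul, abs_of_nonneg (Tf_nonneg hκ s), abs_of_pos (by positivity : 0 < 1 / √δ)]
    have h1 : |P| * |sg κ p| ≤ δ * 1 := mul_le_mul hP (sg_abs hκ p) (abs_nonneg _) hδ.le
    have h2 : |P| * |sg κ p| * Tf κ s ≤ δ * 1 * |s| :=
      mul_le_mul h1 (Tf_le hκ s) (Tf_nonneg hκ s) (by positivity)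
    calc 1 / √δ * (|P| * |sg κ p| * Tf κ s) ≤ 1 / √δ * (δ * 1 * |s|) :=
          mul_le_mul_of_nonneg_left h2 (by positivity)
      _ = √δ * |s| := by
          have : δ * 1 * |s| = √δ * (√δ * |s|) := by rw [mul_one, ← mul_assoc, ← sq, rr]
          rw [this]; field_simp
  have a2 : |√δ * (s * sg κ p)| ≤ √δ * |s| := by
    rw [abs_mul, abs_mul, abs_of_pos r0]
    exact mul_le_mul_of_nonneg_left (mul_le_of_le_one_right (abs_nonneg _) (sg_abs hκ p)) r0.le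
  have a3 : |2 * √δ * (s * arctan (p / et δ κ s))| ≤ 4 * √δ * |s| := by
    rw [abs_mul, abs_mul s, abs_of_pos (by positivity : 0 < 2 * √δ)]
    have h1 : |arctan (p / et δ κ s)| ≤ 2 := by
      rw [abs_le]
      have := pi_lt_d2
      constructor
      · linarith [neg_pi_div_two_lt_arctan (p / et δ κ s)]
      · linarith [arctan_lt_pi_div_two (p / et δ κ s)]
    have h2 : |s| * |arctan (p / et δ κ s)| ≤ |s| * 2 := mul_le_mul_of_nonneg_left h1 (abs_nonneg _)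
    have h3 := mul_le_mul_of_nonneg_left h2 (by positivity : 0 ≤ 2 * √δ)
    linarith
  unfold Psi
  have b1 := abs_add_le (1 / √δ * (P * sg κ p * Tf κ s) + √δ * (s * sg κ p))
    (2 * √δ * (s * arctan (p / et δ κ s)))
  have b2 := abs_add_le (1 / √δ * (P * sg κ p * Tf κ s)) (√δ * (s * sg κ p))
  linarith

/-- comparison of the weights -/
lemma weight_le (hκ : 0 < κ) (s : ℝ) :
    |s| * √|s| ≤ s ^ 2 / √(Ef κ s) + κ * √κ := by
  obtain ⟨x, hx⟩ : ∃ x, x = |s| := ⟨_, rfl⟩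
  have x0 : 0 ≤ x := by rw [hx]; exact abs_nonneg _
  have hs2 : s ^ 2 = x ^ 2 := by rw [hx, sq_abs]
  obtain ⟨E, hE⟩ : ∃ E, E = Ef κ s := ⟨_, rfl⟩
  have E0 : 0 < E := by rw [hE]; exact Ef_pos hκ _
  have Eq : E ^ 2 = x ^ 2 + κ ^ 2 := by rw [hE, Ef_sq, hs2]
  have Eκ : κ ≤ E := by rw [hE]; exact Ef_ge hκ _
  have Ex : x ≤ E := by rw [hE, hx]; exact abs_le_Ef hκ _
  rw [← hx, hs2, ← hE]
  have kk0 : 0 ≤ κ * √κ := by positivity
  rcases le_total x κ with h1 | h1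
  · have : x * √x ≤ κ * √κ := mul_le_mul h1 (sqrt_le_sqrt h1) (sqrt_nonneg _) hκ.le
    have : 0 ≤ x ^ 2 / √E := by positivity
    linarith
  · have x1 : 0 < x := lt_of_lt_of_le hκ h1
    obtain ⟨a, ha⟩ : ∃ a, a = √x := ⟨_, rfl⟩
    obtain ⟨b, hb⟩ : ∃ b, b = √E := ⟨_, rfl⟩
    obtain ⟨c, hc⟩ : ∃ c, c = √κ := ⟨_, rfl⟩
    have a0 : 0 < a := by rw [ha]; positivity
    have b0 : 0 < b := by rw [hb]; positivity
    have c0 : 0 < c := by rw [hc]; positivity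
    have aa : a ^ 2 = x := by rw [ha, sq_sqrt x0]
    have bb : b ^ 2 = E := by rw [hb, sq_sqrt E0.le]
    have cc : c ^ 2 = κ := by rw [hc, sq_sqrt hκ.le]
    rw [← ha, ← hb, ← hc]
    rw [← sub_le_iff_le_add, le_div_iff₀ b0]
    have ab : a ≤ b := by rw [ha, hb]; exact sqrt_le_sqrt Ex
    have cb : c ≤ b := by rw [hc, hb]; exact sqrt_le_sqrt Eκ
    have ca : c ≤ a := by rw [hc, ha]; exact sqrt_le_sqrt h1
    -- (E - x) (E + x) = κ²
    have f1 : (b - a) * ((b + a) * (b ^ 2 + a ^ 2)) = c ^ 4 := by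
      have : (b ^ 2 - a ^ 2) * (b ^ 2 + a ^ 2) = c ^ 4 := by
        have : (b ^ 2) ^ 2 = (a ^ 2) ^ 2 + (c ^ 2) ^ 2 := by rw [bb, aa, cc, Eq]
        nlinarith
      nlinarith
    have f2 : (b - a) * a ^ 3 ≤ c ^ 4 := by
      rw [← f1]
      refine mul_le_mul_of_nonneg_left ?_ (by linarith)
      have : a * a ^ 2 ≤ (b + a) * (b ^ 2 + a ^ 2) :=
        mul_le_mul (by linarith) (by nlinarith [sq_nonneg b]) (by positivity) (by positivity)
      nlinarith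
    have f3 : c ^ 4 ≤ κ * c * b := by
      rw [← cc]
      have : c ^ 3 * c ≤ c ^ 3 * b := mul_le_mul_of_nonneg_left cb (by positivity)
      nlinarith
    have f4 : x * a = a ^ 3 := by rw [← aa]; ring
    have f5 : x ^ 2 = a ^ 4 := by rw [← aa]; ring
    rw [f4, f5]
    nlinarith

end

end Pool.Agent.E8helper19.LW
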