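import Pool.Agent.TH421.AC.Main
import Pool.Agent.E8helper19.LW.Pt

/-!
The planar inequality `∫ φ g(u) |∂_v² u|^(3/2) ≤ C √δ` (semiclassical derivatives).
-/

set_option autoImplicit false
open MeasureTheory Filter Topology Complex
open scoped ContDiff ENNReal

namespace Pool.Agent.E8helper19.LW

open Pool.Agent.W745.RW Pool.Agent.TH294.RS Pool.Agent.TH294.RG Pool.Agent.TH421.DF
open Pool.Agent.TH421.AC

noncomputable section

variable {B : Set ℂ} {h : ℕ → ℝ}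

lemma Ef_smooth {κ : ℝ} (hκ : 0 < κ) {s : ℂ → ℝ} (hs : ContDiffOn ℝ ∞ s B) :
    ContDiffOn ℝ ∞ (fun z => Ef κ (s z)) B := by
  unfold Ef
  exact ((hs.pow 2).add contDiffOn_const).sqrt fun z _ => by positivity

lemma Psi_smooth {δ κ : ℝ} (hδ : 0 < δ) (hκ : 0 < κ) {P p s : ℂ → ℝ} (hP : ContDiffOn ℝ ∞ P B)
    (hp : ContDiffOn ℝ ∞ p B) (hs : ContDiffOn ℝ ∞ s B) :
    ContDiffOn ℝ ∞ (fun z => Psi δ κ (P z) (p z) (s z)) B := by
  have e1 := Ef_smooth hκ hs
  have e2 := Ef_smooth hκ hp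
  have e3 : ContDiffOn ℝ ∞ (fun z => sg κ (p z)) B := by
    unfold sg; exact hp.div e2 fun z _ => (Ef_pos hκ _).ne'
  have e4 : ContDiffOn ℝ ∞ (fun z => Tf κ (s z)) B := by
    unfold Tf; exact (hs.pow 2).div e1 fun z _ => (Ef_pos hκ _).ne'
  have e5 : ContDiffOn ℝ ∞ (fun z => et δ κ (s z)) B := by
    unfold et
    exact (contDiffOn_const.mul e1).sqrt fun z _ => (mul_pos hδ (Ef_pos hκ _)).ne'
  have e6 : ContDiffOn ℝ ∞ (fun z => Real.arctan (p z / et δ κ (s z))) B :=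
    Real.contDiff_arctan.comp_contDiffOn (hp.div e5 fun z _ => (et_pos hδ hκ _).ne')
  unfold Psi
  exact ((contDiffOn_const.mul ((hP.mul e3).mul e4)).add (contDiffOn_const.mul (hs.mul e3))).add
    (contDiffOn_const.mul (hs.mul e6))

lemma line {F : ℂ → ℝ} {z v : ℂ} (hF : DifferentiableAt ℝ F z) :
    HasDerivAt (fun τ : ℝ => F (z + (τ : ℂ) * v)) (fderiv ℝ F z v) 0 := by
  have hc : HasDerivAt (fun τ : ℝ => z + (τ : ℂ) * v) v 0 := by
    have h1 : HasDerivAt (fun τ : ℝ => (τ : ℂ)) 1 0 := Complex.ofRealCLM.hasDerivAt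
    simpa using (h1.mul_const v).const_add z
  have hF' : HasFDerivAt F (fderiv ℝ F z) (z + ((0 : ℝ) : ℂ) * v) := by
    simpa using hF.hasFDerivAt
  exact hF'.comp_hasDerivAt 0 hc

/-- the pointwise inequality in the plane -/
lemma plane_pt {δ κ : ℝ} (hδ : 0 < δ) (hκ : 0 < κ) (hB : IsOpen B) (hp : ∀ n, 0 < h n)
    {u : ℕ → ℂ → ℝ} (hu : ∀ n, ContDiffOn ℝ ∞ (u n) B) (n : ℕ) (v : ℂ) {g : ℝ → ℝ}
    (hg : ContDiff ℝ ∞ g) (g0 : ∀ x, 0 ≤ g x) (g1 : ∀ x, g x ≤ 1) (hP : ∀ x, |Pr g x| ≤ δ)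
    {z : ℂ} (hz : z ∈ B) :
    g (u n z) * (|rd h v (rd h v u) n z| * √|rd h v (rd h v u) n z|) ≤
      h n * fderiv ℝ (fun z => Psi δ κ (Pr g (u n z)) (rd h v u n z) (rd h v (rd h v u) n z)) z v +
      7 * √δ * |rd h v (rd h v (rd h v u)) n z| + κ / √δ * |rd h v (rd h v u) n z| +
      κ * √κ := by
  have s1 := rd_sm (h := h) hB hu v
  have s2 := rd_sm (h := h) hB s1 v
  have hn := hp n
  have l0 := line (v := v) (rdA hB (hu n) hz)
  have l1 := line (v := v) (rdA hB (s1 n) hz)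
  have l2 := line (v := v) (rdA hB (s2 n) hz)
  have sP : ContDiffOn ℝ ∞ (fun z => Pr g (u n z)) B := (Pr_sm hg).comp_contDiffOn (hu n)
  have lP : HasDerivAt (fun τ : ℝ => Pr g (u n (z + (τ : ℂ) * v)))
      (g (u n z) * fderiv ℝ (u n) z v) 0 := by
    have h1 : HasDerivAt (Pr g) (g (u n z)) (u n (z + ((0 : ℝ) : ℂ) * v)) := by
      have := Pr_d hg (u n z)
      simpa using this
    exact h1.comp 0 l0
  have lF := line (v := v) (rdA hB (Psi_smooth hδ hκ sP (s1 n) (s2 n)) hz)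
  have a0 : fderiv ℝ (u n) z v = rd h v u n (z + ((0 : ℝ) : ℂ) * v) / h n := by
    simp only [ofReal_zero, zero_mul, add_zero, rd]; field_simp
  have a1 : fderiv ℝ (rd h v u n) z v = rd h v (rd h v u) n (z + ((0 : ℝ) : ℂ) * v) / h n := by
    simp only [ofReal_zero, zero_mul, add_zero, rd]; field_simp
  have a2 : fderiv ℝ (rd h v (rd h v u) n) z v = rd h v (rd h v (rd h v u)) n z / h n := by
    conv_rhs => rw [rd]
    field_simp
  rw [a0] at lP
  rw [a1] at l1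
  rw [a2] at l2
  obtain ⟨d, D, e⟩ := line_ineq (P := fun τ : ℝ => Pr g (u n (z + (τ : ℂ) * v)))
    (p := fun τ : ℝ => rd h v u n (z + (τ : ℂ) * v))
    (s := fun τ : ℝ => rd h v (rd h v u) n (z + (τ : ℂ) * v)) (G := g (u n z))
    (q := rd h v (rd h v (rd h v u)) n z) (t := 0) hδ hκ hn lP l1 l2 (hP _) (g0 _) (g1 _)
  have ed : d = fderiv ℝ (fun z => Psi δ κ (Pr g (u n z)) (rd h v u n z)
      (rd h v (rd h v u) n z)) z v := D.unique lF
  rw [ed] at e
  simp only [ofReal_zero, zero_mul, add_zero] at e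
  have w := weight_le hκ (rd h v (rd h v u) n z)
  have w2 := mul_le_mul_of_nonneg_left w (g0 (u n z))
  have kk : 0 ≤ κ * √κ := by positivity
  have w3 : g (u n z) * (κ * √κ) ≤ κ * √κ := mul_le_of_le_one_left kk (g1 _)
  rw [mul_add] at w2
  linarith

/-- **One direction.** -/
theorem one_dir' (hB : IsOpen B) (hp : ∀ n, 0 < h n) (hh : Tendsto h atTop (𝓝 0))
    {u : ℕ → ℂ → ℝ} (hu : ∀ n, ContDiffOn ℝ ∞ (u n) B) (hM : MK2 B h 3 (cx u))
    {φ : ℂ → ℝ} (hφ : TF B φ) (hφ0 : ∀ z, 0 ≤ φ z) {v : ℂ} (hv : v = 1 ∨ v = I) :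
    ∃ C : ℝ, 0 ≤ C ∧ ∀ᶠ n in atTop, ∀ (g : ℝ → ℝ) (δ : ℝ), ContDiff ℝ ∞ g → (∀ x, 0 ≤ g x) →
      (∀ x, g x ≤ 1) → 0 < δ → (∀ x, |Pr g x| ≤ δ) →
      ∫ z, φ z * (g (u n z) * (|rd h v (rd h v u) n z| * √|rd h v (rd h v u) n z|)) ≤ √δ * C := by
  obtain ⟨S, hS⟩ : ∃ S : Set ℂ, S = tsupport φ := ⟨_, rfl⟩
  have hSc : IsCompact S := by rw [hS]; exact hφ.2.1
  have hSB : S ⊆ B := by rw [hS]; exact hφ.2.2
  have z0 : ∀ z, z ∉ S → φ z = 0 := fun z hz => image_eq_zero_of_notMem_tsupport (by rwa [hS] at hz)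
  have z1 : ∀ z, z ∉ S → fderiv ℝ φ z v = 0 := fun z hz => by
    rw [fderiv_of_notMem_tsupport ℝ (by rwa [hS] at hz)]; rfl
  have cφ : Continuous φ := hφ.1.continuous
  have cφ' : Continuous (fun z => fderiv ℝ φ z v) :=
    ((hφ.1.fderiv_right (m := ∞) le_rfl).clm_apply contDiff_const).continuous
  obtain ⟨M, hM1⟩ := hSc.exists_bound_of_continuousOn cφ.continuousOn
  obtain ⟨M', hM2⟩ := hSc.exists_bound_of_continuousOn cφ'.continuousOn
  have s1 := rd_sm (h := h) hB hu v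
  have s2 := rd_sm (h := h) hB s1 v
  have s3 := rd_sm (h := h) hB s2 v
  have r1 : MK2 B h 2 (cx (rd h v u)) := by
    rcases hv with rfl | rfl
    · exact (mk_rd hB hu hM).1
    · exact (mk_rd hB hu hM).2
  have r2 : MK2 B h 1 (cx (rd h v (rd h v u))) := by
    rcases hv with rfl | rfl
    · exact (mk_rd hB s1 r1).1
    · exact (mk_rd hB s1 r1).2
  have r3 : MK2 B h 0 (cx (rd h v (rd h v (rd h v u)))) := by
    rcases hv with rfl | rfl
    · exact (mk_rd hB s2 r2).1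
    · exact (mk_rd hB s2 r2).2
  obtain ⟨C2, hC2, b2⟩ := lb_re r2.lb hSc hSB
  obtain ⟨C3, hC3, b3⟩ := lb_re r3.lb hSc hSB
  obtain ⟨A, hA⟩ : ∃ A : ℝ, A = ∫ z in S, (1 : ℝ) := ⟨_, rfl⟩
  have A0 : 0 ≤ A := by rw [hA]; exact integral_nonneg fun z => zero_le_one
  refine ⟨6 * (|M'| * (A + C2)) + 7 * (|M| * (A + C3)), by positivity, ?_⟩
  filter_upwards [b2, b3, ev_h1 hh] with n b2 b3 h1 g δ hg g0 g1 hδ hPδ
  have r0 : 0 < √δ := Real.sqrt_pos.2 hδ
  obtain ⟨s, hs⟩ : ∃ s : ℂ → ℝ, s = rd h v (rd h v u) n := ⟨_, rfl⟩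
  obtain ⟨q, hq⟩ : ∃ q : ℂ → ℝ, q = rd h v (rd h v (rd h v u)) n := ⟨_, rfl⟩
  have cs : ContinuousOn s S := by rw [hs]; exact (s2 n).continuousOn.mono hSB
  have cq : ContinuousOn q S := by rw [hq]; exact (s3 n).continuousOn.mono hSB
  have cu : ContinuousOn (u n) S := (hu n).continuousOn.mono hSB
  have cg : ContinuousOn (fun z => g (u n z)) S := hg.continuous.comp_continuousOn cu
  have b3' : ∫ z in S, q z ^ 2 ≤ C3 := by rw [hq]; exact b3
  have b2' : ∫ z in S, s z ^ 2 ≤ C2 := by rw [hs]; exact b2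
  have q3 := l1_bd hSc cφ.continuousOn (fun z hz => (hM1 z hz).trans (le_abs_self M))
    (abs_nonneg M) z0 cq b3'
  have q4 := l1_bd hSc cφ'.continuousOn (fun z hz => (hM2 z hz).trans (le_abs_self M'))
    (abs_nonneg M') z1 cs b2'
  rw [← hA] at q3 q4
  have iq : Integrable (fun z => |φ z * q z|) :=
    rint hSc (cφ.continuousOn.mul cq).abs fun z hz => by rw [z0 z hz]; simp
  have is' : Integrable (fun z => |fderiv ℝ φ z v * s z|) :=
    rint hSc (cφ'.continuousOn.mul cs).abs fun z hz => by rw [z1 z hz]; simp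
  have is : Integrable (fun z => |φ z * s z|) :=
    rint hSc (cφ.continuousOn.mul cs).abs fun z hz => by rw [z0 z hz]; simp
  have iφ : Integrable φ := cφ.integrable_of_hasCompactSupport hφ.2.1
  have iL : Integrable (fun z => φ z * (g (u n z) * (|s z| * √|s z|))) :=
    rint hSc (cφ.continuousOn.mul (cg.mul (cs.abs.mul (Real.continuous_sqrt.comp_continuousOn cs.abs))))
      fun z hz => by rw [z0 z hz, zero_mul]
  have each : ∀ κ : ℝ, 0 < κ → ∫ z, φ z * (g (u n z) * (|s z| * √|s z|)) ≤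
      (6 * √δ * ∫ z, |fderiv ℝ φ z v * s z|) + (7 * √δ * ∫ z, |φ z * q z|) +
      (κ / √δ * ∫ z, |φ z * s z|) + κ * √κ * ∫ z, φ z := by
    intro κ hκ
    obtain ⟨F, hF⟩ : ∃ F : ℂ → ℝ, F = fun z => Psi δ κ (Pr g (u n z)) (rd h v u n z)
      (rd h v (rd h v u) n z) := ⟨_, rfl⟩
    have sP : ContDiffOn ℝ ∞ (fun z => Pr g (u n z)) B := (Pr_sm hg).comp_contDiffOn (hu n)
    have sF : ContDiffOn ℝ ∞ F B := by rw [hF]; exact Psi_smooth hδ hκ sP (s1 n) (s2 n)
    have Fle : ∀ z, |F z| ≤ 6 * √δ * |s z| := fun z => by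
      rw [hF, hs]; exact Psi_le hδ hκ (hPδ _) _ _
    obtain ⟨U, hU⟩ : ∃ U : ℂ → ℝ, U = fun z => φ z * F z := ⟨_, rfl⟩
    have sU : ContDiffOn ℝ ∞ U B := by rw [hU]; exact hφ.1.contDiffOn.mul sF
    have zU : ∀ z, z ∉ S → U z = 0 := fun z hz => by
      rw [hU]; show φ z * _ = 0; rw [z0 z hz, zero_mul]
    have nhU : ∀ z, z ∉ S → U =ᶠ[𝓝 z] fun _ => 0 := by
      intro z hz
      filter_upwards [hSc.isClosed.isOpen_compl.mem_nhds (hz : z ∈ Sᶜ)] with w hw
      exact zU w hw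
    have gU : ContDiff ℝ ∞ U := by
      refine contDiff_iff_contDiffAt.2 fun w => ?_
      by_cases hw : w ∈ B
      · exact sU.contDiffAt (hB.mem_nhds hw)
      · exact contDiffAt_const.congr_of_eventuallyEq (nhU w fun h => hw (hSB h))
    obtain ⟨iU, jU⟩ := Pool.Agent.W366.RW.int_zero U gU (HasCompactSupport.intro hSc zU) v
    have pt : ∀ z, φ z * (g (u n z) * (|s z| * √|s z|)) ≤ h n * fderiv ℝ U z v +
        6 * √δ * |fderiv ℝ φ z v * s z| + 7 * √δ * |φ z * q z| + κ / √δ * |φ z * s z| +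
        κ * √κ * φ z := by
      intro z
      by_cases hz : z ∈ B
      · have e1 := plane_pt hδ hκ hB hp hu n v hg g0 g1 hPδ hz
        rw [← hs, ← hq] at e1
        have e2 := mul_le_mul_of_nonneg_left e1 (hφ0 z)
        have d1 : HasFDerivAt φ (fderiv ℝ φ z) z :=
          (hφ.1.differentiable (by simp) z).hasFDerivAt
        have d2 : HasFDerivAt F (fderiv ℝ F z) z := (rdA hB sF hz).hasFDerivAt
        have e3 : fderiv ℝ U z v = φ z * fderiv ℝ F z v + F z * fderiv ℝ φ z v := by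
          rw [hU]
          have e3 := congrArg (fun L : ℂ →L[ℝ] ℝ => L v) (d1.mul d2).fderiv
          refine Eq.trans e3 ?_
          simp only [add_apply, smul_apply, smul_eq_mul]
        have e4 : fderiv ℝ (fun z => Psi δ κ (Pr g (u n z)) (rd h v u n z) (s z)) z v =
            fderiv ℝ F z v := by rw [hF, hs]
        rw [e4] at e2
        have e5 : -(h n * (F z * fderiv ℝ φ z v)) ≤ 6 * √δ * |fderiv ℝ φ z v * s z| := by
          refine (neg_le_abs _).trans ?_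
          rw [abs_mul, abs_of_pos (hp n), abs_mul, abs_mul]
          have t1 : |F z| * |fderiv ℝ φ z v| ≤ 6 * √δ * |s z| * |fderiv ℝ φ z v| :=
            mul_le_mul_of_nonneg_right (Fle z) (abs_nonneg _)
          have t2 : h n * (|F z| * |fderiv ℝ φ z v|) ≤ 1 * (|F z| * |fderiv ℝ φ z v|) :=
            mul_le_mul_of_nonneg_right h1.le (by positivity)
          linarith
        have a1 : |φ z * q z| = φ z * |q z| := by rw [abs_mul, abs_of_nonneg (hφ0 z)]
        have a2 : |φ z * s z| = φ z * |s z| := by rw [abs_mul, abs_of_nonneg (hφ0 z)]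
        rw [e3, a1, a2]
        linarith
      · have hzS : z ∉ S := fun h => hz (hSB h)
        rw [z0 z hzS, z1 z hzS, (nhU z hzS).fderiv_eq]; simp
    have k1 : Integrable (fun z => h n * fderiv ℝ U z v) := iU.const_mul _
    have k2 : Integrable (fun z => 6 * √δ * |fderiv ℝ φ z v * s z|) := is'.const_mul _
    have k3 : Integrable (fun z => 7 * √δ * |φ z * q z|) := iq.const_mul _
    have k4 : Integrable (fun z => κ / √δ * |φ z * s z|) := is.const_mul _
    have k5 : Integrable (fun z => κ * √κ * φ z) := iφ.const_mul _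
    have k12 : Integrable (fun z => h n * fderiv ℝ U z v + 6 * √δ * |fderiv ℝ φ z v * s z|) :=
      k1.add k2
    have k123 : Integrable (fun z => h n * fderiv ℝ U z v + 6 * √δ * |fderiv ℝ φ z v * s z| +
      7 * √δ * |φ z * q z|) := k12.add k3
    have k1234 : Integrable (fun z => h n * fderiv ℝ U z v + 6 * √δ * |fderiv ℝ φ z v * s z| +
      7 * √δ * |φ z * q z| + κ / √δ * |φ z * s z|) := k123.add k4
    have k : Integrable (fun z => h n * fderiv ℝ U z v + 6 * √δ * |fderiv ℝ φ z v * s z| +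
      7 * √δ * |φ z * q z| + κ / √δ * |φ z * s z| + κ * √κ * φ z) := k1234.add k5
    refine (integral_mono iL k pt).trans ?_
    rw [integral_add k1234 k5, integral_add k123 k4, integral_add k12 k3, integral_add k1 k2,
      integral_const_mul, integral_const_mul, integral_const_mul, integral_const_mul,
      integral_const_mul, jU, mul_zero, zero_add]
  have lim : Tendsto (fun κ : ℝ => (6 * √δ * ∫ z, |fderiv ℝ φ z v * s z|) +
      (7 * √δ * ∫ z, |φ z * q z|) + (κ / √δ * ∫ z, |φ z * s z|) + κ * √κ * ∫ z, φ z)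
      (𝓝[>] 0) (𝓝 ((6 * √δ * ∫ z, |fderiv ℝ φ z v * s z|) + (7 * √δ * ∫ z, |φ z * q z|) +
      ((0 : ℝ) / √δ * ∫ z, |φ z * s z|) + (0 : ℝ) * √(0 : ℝ) * ∫ z, φ z)) := by
    refine Tendsto.mono_left ?_ nhdsWithin_le_nhds
    refine Continuous.tendsto (f := fun κ : ℝ => (6 * √δ * ∫ z, |fderiv ℝ φ z v * s z|) +
      (7 * √δ * ∫ z, |φ z * q z|) + (κ / √δ * ∫ z, |φ z * s z|) + κ * √κ * ∫ z, φ z) ?_ 0
    fun_prop
  have fin := ge_of_tendsto lim (eventually_nhdsWithin_of_forall fun κ hκ => each κ hκ)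
  rw [zero_div, zero_mul, zero_mul, zero_mul, add_zero, add_zero] at fin
  have f1 := mul_le_mul_of_nonneg_left q3 r0.le
  have f2 := mul_le_mul_of_nonneg_left q4 r0.le
  rw [← hs]
  linarith

end

end Pool.Agent.E8helper19.LW
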