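import Pool.Agent.E8helper19.LW.Dir

/-!
The inequality `∫ φ g(u) |ρ u|^(3/2) ≤ C √δ` for `0 ≤ g ≤ 1` with `|∫_0^x g| ≤ δ`.
-/

set_option autoImplicit false
open MeasureTheory Filter Topology Complex
open scoped ContDiff ENNReal

namespace Pool.Agent.E8helper19.LW

open Pool.Agent.W745.RW Pool.Agent.TH294.RS Pool.Agent.TH294.RG Pool.Agent.TH421.DF
open Pool.Agent.TH421.AC

noncomputable section

variable {B : Set ℂ} {h : ℕ → ℝ}

lemma wt_mono {a b : ℝ} (ha : 0 ≤ a) (hab : a ≤ b) : a * √a ≤ b * √b :=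
  mul_le_mul hab (Real.sqrt_le_sqrt hab) (Real.sqrt_nonneg _) (ha.trans hab)

lemma wt_two {a : ℝ} (ha : 0 ≤ a) : 2 * a * √(2 * a) ≤ 3 * (a * √a) := by
  rw [Real.sqrt_mul (by norm_num)]
  have h1 : √2 ≤ 3 / 2 := by
    rw [Real.sqrt_le_left (by norm_num)]; norm_num
  have h2 : 0 ≤ a * √a := by positivity
  nlinarith

lemma wt_add {a b : ℝ} (ha : 0 ≤ a) (hb : 0 ≤ b) :
    (a + b) * √(a + b) ≤ 3 * (a * √a + b * √b) := by
  have h1 : 0 ≤ a * √a := by positivity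
  have h2 : 0 ≤ b * √b := by positivity
  rcases le_total a b with h | h
  · have := (wt_mono (by positivity) (by linarith : a + b ≤ 2 * b)).trans (wt_two hb)
    linarith
  · have := (wt_mono (by positivity) (by linarith : a + b ≤ 2 * a)).trans (wt_two ha)
    linarith

/-- **The main inequality.** -/
theorem main_ineq' (hB : IsOpen B) (hp : ∀ n, 0 < h n) (hh : Tendsto h atTop (𝓝 0))
    {u : ℕ → ℂ → ℝ} (hu : ∀ n, ContDiffOn ℝ ∞ (u n) B) (hM : MK2 B h 3 (cx u))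
    {φ : ℂ → ℝ} (hφ : TF B φ) (hφ0 : ∀ z, 0 ≤ φ z) {ρ : ℂ → ℝ} (hρ : ContinuousOn ρ B)
    (he : ∀ n, ∀ z ∈ B, rd h 1 (rd h 1 u) n z + rd h I (rd h I u) n z = -(ρ z * u n z)) :
    ∃ C : ℝ, 0 ≤ C ∧ ∀ᶠ n in atTop, ∀ (g : ℝ → ℝ) (δ : ℝ), ContDiff ℝ ∞ g → (∀ x, 0 ≤ g x) →
      (∀ x, g x ≤ 1) → 0 < δ → (∀ x, |Pr g x| ≤ δ) →
      ∫ z, φ z * (g (u n z) * (|ρ z * u n z| * √|ρ z * u n z|)) ≤ √δ * C := by
  obtain ⟨C1, C10, E1⟩ := one_dir' hB hp hh hu hM hφ hφ0 (v := 1) (Or.inl rfl)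
  obtain ⟨C2, C20, E2⟩ := one_dir' hB hp hh hu hM hφ hφ0 (v := I) (Or.inr rfl)
  refine ⟨3 * (C1 + C2), by positivity, ?_⟩
  filter_upwards [E1, E2] with n E1 E2 g δ hg g0 g1 hδ hge
  have F1 := E1 g δ hg g0 g1 hδ hge
  have F2 := E2 g δ hg g0 g1 hδ hge
  have hSc : IsCompact (tsupport φ) := hφ.2.1
  have hSB : tsupport φ ⊆ B := hφ.2.2
  have z0 : ∀ z, z ∉ tsupport φ → φ z = 0 := fun z hz => image_eq_zero_of_notMem_tsupport hz
  have cφ : Continuous φ := hφ.1.continuous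
  have cu : ContinuousOn (u n) (tsupport φ) := (hu n).continuousOn.mono hSB
  have cg : ContinuousOn (fun z => g (u n z)) (tsupport φ) := hg.continuous.comp_continuousOn cu
  have cY : ∀ v, ContinuousOn (rd h v (rd h v u) n) (tsupport φ) := fun v =>
    (rd_sm hB (rd_sm hB hu v) v n).continuousOn.mono hSB
  have cW : ∀ {s : ℂ → ℝ}, ContinuousOn s (tsupport φ) →
      ContinuousOn (fun z => |s z| * √|s z|) (tsupport φ) := fun hs =>
    hs.abs.mul (Real.continuous_sqrt.comp_continuousOn hs.abs)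
  have i0 : Integrable (fun z => φ z * (g (u n z) * (|ρ z * u n z| * √|ρ z * u n z|))) :=
    rint hSc (cφ.continuousOn.mul (cg.mul (cW ((hρ.mono hSB).mul cu))))
      fun z hz => by rw [z0 z hz, zero_mul]
  have iv : ∀ v, Integrable (fun z => φ z * (g (u n z) *
      (|rd h v (rd h v u) n z| * √|rd h v (rd h v u) n z|))) := fun v =>
    rint hSc (cφ.continuousOn.mul (cg.mul (cW (cY v)))) fun z hz => by rw [z0 z hz, zero_mul]
  have tot := integral_mono i0 (((iv 1).add (iv I)).const_mul 3) (fun z => by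
    show φ z * (g (u n z) * (|ρ z * u n z| * √|ρ z * u n z|)) ≤
      3 * (φ z * (g (u n z) * (|rd h 1 (rd h 1 u) n z| * √|rd h 1 (rd h 1 u) n z|)) +
      φ z * (g (u n z) * (|rd h I (rd h I u) n z| * √|rd h I (rd h I u) n z|)))
    by_cases hz : z ∈ B
    · have h1 := he n z hz
      have h2 : |ρ z * u n z| ≤ |rd h 1 (rd h 1 u) n z| + |rd h I (rd h I u) n z| := by
        rw [← abs_neg (ρ z * u n z), ← h1]; exact abs_add_le _ _
      have h2' := (wt_mono (abs_nonneg _) h2).trans (wt_add (abs_nonneg _) (abs_nonneg _))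
      have h3 := mul_le_mul_of_nonneg_left h2' (mul_nonneg (hφ0 z) (g0 (u n z)))
      nlinarith
    · rw [z0 z fun h => hz (hSB h)]; simp)
  rw [integral_const_mul] at tot
  have ev : ∫ z, ((fun z => φ z * (g (u n z) *
      (|rd h 1 (rd h 1 u) n z| * √|rd h 1 (rd h 1 u) n z|))) +
      fun z => φ z * (g (u n z) * (|rd h I (rd h I u) n z| * √|rd h I (rd h I u) n z|))) z =
      (∫ z, φ z * (g (u n z) * (|rd h 1 (rd h 1 u) n z| * √|rd h 1 (rd h 1 u) n z|))) +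
      ∫ z, φ z * (g (u n z) * (|rd h I (rd h I u) n z| * √|rd h I (rd h I u) n z|)) :=
    integral_add (iv 1) (iv I)
  rw [ev] at tot
  linarith

/-- the weight without the metric -/
lemma wt_rho {c ρ x : ℝ} (hc : 0 < c) (hcρ : c ≤ ρ) :
    |x| * √|x| * ρ ≤ (√c)⁻¹ * (|ρ * x| * √|ρ * x|) := by
  have r0 : 0 < ρ := hc.trans_le hcρ
  rw [abs_mul, abs_of_pos r0, Real.sqrt_mul r0.le]
  have h1 : √c ≤ √ρ := Real.sqrt_le_sqrt hcρ
  have h2 : 0 < √c := Real.sqrt_pos.2 hc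
  have h3 : 1 ≤ (√c)⁻¹ * √ρ := by
    rw [← inv_mul_cancel₀ h2.ne']
    exact mul_le_mul_of_nonneg_left h1 (by positivity)
  have h4 : 0 ≤ |x| * √|x| * ρ := by positivity
  calc |x| * √|x| * ρ ≤ (|x| * √|x| * ρ) * ((√c)⁻¹ * √ρ) := le_mul_of_one_le_right h4 h3
    _ = (√c)⁻¹ * (ρ * |x| * (√ρ * √|x|)) := by ring

/-- the form with weight `ρ |u|^(3/2)` -/
theorem main_ineq'' (hB : IsOpen B) (hp : ∀ n, 0 < h n) (hh : Tendsto h atTop (𝓝 0))
    {u : ℕ → ℂ → ℝ} (hu : ∀ n, ContDiffOn ℝ ∞ (u n) B) (hM : MK2 B h 3 (cx u))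
    {φ : ℂ → ℝ} (hφ : TF B φ) (hφ0 : ∀ z, 0 ≤ φ z) {ρ : ℂ → ℝ} (hρ : ContinuousOn ρ B)
    (hρ0 : ∀ z ∈ B, 0 < ρ z)
    (he : ∀ n, ∀ z ∈ B, rd h 1 (rd h 1 u) n z + rd h I (rd h I u) n z = -(ρ z * u n z)) :
    ∃ C : ℝ, 0 ≤ C ∧ ∀ᶠ n in atTop, ∀ (g : ℝ → ℝ) (δ : ℝ), ContDiff ℝ ∞ g → (∀ x, 0 ≤ g x) →
      (∀ x, g x ≤ 1) → 0 < δ → (∀ x, |Pr g x| ≤ δ) →
      ∫ z, φ z * (g (u n z) * (|u n z| * √|u n z|) * ρ z) ≤ √δ * C := by
  obtain ⟨C, C0, E⟩ := main_ineq' hB hp hh hu hM hφ hφ0 hρ he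
  have hSc : IsCompact (tsupport φ) := hφ.2.1
  have hSB : tsupport φ ⊆ B := hφ.2.2
  have z0 : ∀ z, z ∉ tsupport φ → φ z = 0 := fun z hz => image_eq_zero_of_notMem_tsupport hz
  obtain ⟨c, hc, hcρ⟩ : ∃ c : ℝ, 0 < c ∧ ∀ z ∈ tsupport φ, c ≤ ρ z := by
    rcases (tsupport φ).eq_empty_or_nonempty with h0 | h0
    · exact ⟨1, one_pos, fun z hz => by rw [h0] at hz; exact absurd hz (Set.notMem_empty z)⟩
    · obtain ⟨z, hz, hm⟩ := hSc.exists_isMinOn h0 (hρ.mono hSB)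
      exact ⟨ρ z, hρ0 z (hSB hz), fun w hw => hm hw⟩
  have sc : 0 < √c := Real.sqrt_pos.2 hc
  refine ⟨(√c)⁻¹ * C, by positivity, ?_⟩
  filter_upwards [E] with n E g δ hg g0 g1 hδ hge
  have F := E g δ hg g0 g1 hδ hge
  have cφ : Continuous φ := hφ.1.continuous
  have cu : ContinuousOn (u n) (tsupport φ) := (hu n).continuousOn.mono hSB
  have cg : ContinuousOn (fun z => g (u n z)) (tsupport φ) := hg.continuous.comp_continuousOn cu
  have cρ : ContinuousOn ρ (tsupport φ) := hρ.mono hSB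
  have cW : ∀ {s : ℂ → ℝ}, ContinuousOn s (tsupport φ) →
      ContinuousOn (fun z => |s z| * √|s z|) (tsupport φ) := fun hs =>
    hs.abs.mul (Real.continuous_sqrt.comp_continuousOn hs.abs)
  have i0 : Integrable (fun z => φ z * (g (u n z) * (|ρ z * u n z| * √|ρ z * u n z|))) :=
    rint hSc (cφ.continuousOn.mul (cg.mul (cW (cρ.mul cu))))
      fun z hz => by rw [z0 z hz, zero_mul]
  have i1 : Integrable (fun z => φ z * (g (u n z) * (|u n z| * √|u n z|) * ρ z)) :=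
    rint hSc (cφ.continuousOn.mul ((cg.mul (cW cu)).mul cρ))
      fun z hz => by rw [z0 z hz, zero_mul]
  have tot := integral_mono i1 (i0.const_mul (√c)⁻¹) (fun z => by
    show φ z * (g (u n z) * (|u n z| * √|u n z|) * ρ z) ≤
      (√c)⁻¹ * (φ z * (g (u n z) * (|ρ z * u n z| * √|ρ z * u n z|)))
    by_cases hz : z ∈ tsupport φ
    · have h2 := wt_rho (x := u n z) hc (hcρ z hz)
      have h3 := mul_le_mul_of_nonneg_left h2 (mul_nonneg (hφ0 z) (g0 (u n z)))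
      linarith
    · rw [z0 z hz]; simp)
  rw [integral_const_mul] at tot
  have := mul_le_mul_of_nonneg_left F (by positivity : 0 ≤ (√c)⁻¹)
  linarith

end

end Pool.Agent.E8helper19.LW
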