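import Pool.Agent.Y139.PD.G
import Pool.Agent.E8helper19.LW.Main

/-!
The energy inequality for third derivatives.
-/

set_option autoImplicit false
open MeasureTheory Filter Topology Complex
open scoped ContDiff ENNReal

namespace Pool.Agent.E8helper19.LW

open Pool.Agent.W745.RW Pool.Agent.TH294.RS Pool.Agent.TH294.RG Pool.Agent.TH421.DF
open Pool.Agent.TH421.AC Pool.Agent.Y139.PD

noncomputable section

variable {B : Set ℂ}

lemma d_congr (hB : IsOpen B) {f g : ℂ → ℝ} (e : ∀ z ∈ B, f z = g z) (h : ℝ) (v : ℂ) {z : ℂ}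
    (hz : z ∈ B) : d h v f z = d h v g z := by
  have e1 : f =ᶠ[𝓝 z] g := by
    filter_upwards [hB.mem_nhds hz] with w hw
    exact e w hw
  show h * fderiv ℝ f z v = h * fderiv ℝ g z v
  rw [e1.fderiv_eq]

lemma d_comm' (hB : IsOpen B) {f : ℂ → ℝ} (hf : ContDiffOn ℝ ∞ f B) {z : ℂ} (hz : z ∈ B)
    (h : ℝ) {v w : ℂ} (hv : v = 1 ∨ v = I) (hw : w = 1 ∨ w = I) :
    d h v (d h w f) z = d h w (d h v f) z := by
  rcases hv with rfl | rfl <;> rcases hw with rfl | rfl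
  · rfl
  · exact d_comm hB hf hz h
  · exact (d_comm hB hf hz h).symm
  · rfl

lemma d_add {f g : ℂ → ℝ} {z : ℂ} (hf : DifferentiableAt ℝ f z) (hg : DifferentiableAt ℝ g z)
    (h : ℝ) (v : ℂ) : d h v (fun w => f w + g w) z = d h v f z + d h v g z := by
  unfold d
  rw [fderiv_fun_add hf hg]
  simp only [add_apply]
  ring

lemma d_neg {f : ℂ → ℝ} {z : ℂ} (h : ℝ) (v : ℂ) : d h v (fun w => -f w) z = -d h v f z := by
  unfold d
  rw [fderiv_fun_neg]
  simp only [neg_apply]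
  ring

/-- the Laplacian commutes with the derivatives -/
lemma lap_comm (hB : IsOpen B) {f : ℂ → ℝ} (hf : ContDiffOn ℝ ∞ f B) {z : ℂ} (hz : z ∈ B)
    (h : ℝ) {v : ℂ} (hv : v = 1 ∨ v = I) :
    d h 1 (d h 1 (d h v f)) z + d h I (d h I (d h v f)) z =
      d h v (fun w => d h 1 (d h 1 f) w + d h I (d h I f) w) z := by
  have c : ∀ w : ℂ, (w = 1 ∨ w = I) → d h w (d h w (d h v f)) z = d h v (d h w (d h w f)) z := by
    intro w hw
    have e1 : ∀ y ∈ B, d h w (d h v f) y = d h v (d h w f) y := fun y hy =>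
      d_comm' hB hf hy h hw hv
    rw [d_congr hB e1 h w hz]
    exact d_comm' hB (d_sm hB hf h w) hz h hw hv
  rw [c 1 (Or.inl rfl), c I (Or.inr rfl), d_add]
  · exact rdA hB (d_sm hB (d_sm hB hf h 1) h 1) hz
  · exact rdA hB (d_sm hB (d_sm hB hf h I) h I) hz

/-- the equation of the second derivatives -/
lemma eq_two (hB : IsOpen B) {ρ : ℂ → ℝ} (hρ : ContDiffOn ℝ ∞ ρ B) {h : ℝ} {u : ℂ → ℝ}
    (hu : Sol B h ρ u) {v : ℂ} (hv : v = 1 ∨ v = I) {z : ℂ} (hz : z ∈ B) :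
    d h 1 (d h 1 (d h v (d h v u))) z + d h I (d h I (d h v (d h v u))) z =
      -(ρ z * d h v (d h v u) z) - 2 * (d h v ρ z * d h v u z) - d h v (d h v ρ) z * u z := by
  have s0 := hu.su
  have s1 := d_sm hB s0 h v
  have r1 := d_sm hB hρ h v
  have a1 : ∀ y ∈ B, d h 1 (d h 1 (d h v u)) y + d h I (d h I (d h v u)) y =
      -(d h v ρ y * u y + ρ y * d h v u y) := by
    intro y hy
    rw [lap_comm hB s0 hy h hv, d_congr hB hu.eq h v hy, d_neg,
      d_mul (rdA hB hρ hy) (rdA hB s0 hy)]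
  rw [lap_comm hB s1 hz h hv, d_congr hB a1 h v hz, d_neg,
    d_add (rdA hB (r1.mul s0) hz) (rdA hB (hρ.mul s1) hz),
    d_mul (rdA hB r1 hz) (rdA hB s0 hz), d_mul (rdA hB hρ hz) (rdA hB s1 hz)]
  ring

/-- the third order energy density -/
def e3 (h : ℝ) (u : ℂ → ℝ) (z : ℂ) : ℝ :=
  e2 h u z + (d h 1 (d h 1 (d h 1 u)) z ^ 2 + d h I (d h 1 (d h 1 u)) z ^ 2) +
    (d h 1 (d h I (d h I u)) z ^ 2 + d h I (d h I (d h I u)) z ^ 2)

lemma e3_co (hB : IsOpen B) {h : ℝ} {u : ℂ → ℝ} (su : ContDiffOn ℝ ∞ u B) :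
    ContinuousOn (e3 h u) B := by
  have b := (d_sm hB su h 1)
  have c := (d_sm hB su h I)
  have p := (d_sm hB b h 1)
  have q := (d_sm hB c h I)
  exact ((e2_co hB su).add (((d_sm hB p h 1).continuousOn.pow 2).add
    ((d_sm hB p h I).continuousOn.pow 2))).add (((d_sm hB q h 1).continuousOn.pow 2).add
    ((d_sm hB q h I).continuousOn.pow 2))

lemma e2_nonneg (h : ℝ) (u : ℂ → ℝ) (z : ℂ) : 0 ≤ e2 h u z := by unfold e2; positivity

lemma e3_ge (h : ℝ) (u : ℂ → ℝ) {v : ℂ} (hv : v = 1 ∨ v = I) (z : ℂ) :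
    u z ^ 2 + d h v u z ^ 2 + d h v (d h v u) z ^ 2 + d h 1 (d h v (d h v u)) z ^ 2 +
      d h I (d h v (d h v u)) z ^ 2 ≤ e3 h u z := by
  unfold e3 e2
  rcases hv with rfl | rfl
  · have : 0 ≤ d h I u z ^ 2 + d h I (d h I u) z ^ 2 + d h I (d h 1 u) z ^ 2 +
      (d h 1 (d h I (d h I u)) z ^ 2 + d h I (d h I (d h I u)) z ^ 2) := by positivity
    linarith
  · have : 0 ≤ d h 1 u z ^ 2 + d h 1 (d h 1 u) z ^ 2 + d h I (d h 1 u) z ^ 2 +
      (d h 1 (d h 1 (d h 1 u)) z ^ 2 + d h I (d h 1 (d h 1 u)) z ^ 2) := by positivity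
    linarith

/-- **The energy inequality for the third derivatives.** -/
theorem L3v (hB : IsOpen B) {ψ ρ : ℂ → ℝ} (hψ : TF B ψ) (hψ0 : ∀ z, 0 ≤ ψ z)
    (hρ : ContDiffOn ℝ ∞ ρ B) {v : ℂ} (hv : v = 1 ∨ v = I) :
    ∃ K : ℝ, 0 ≤ K ∧ ∀ (h : ℝ) (u : ℂ → ℝ), Sol B h ρ u → h ≤ 1 →
      ∫ z, ψ z * d h v (d h v (d h v u)) z ^ 2 ≤
        (∫ z, ψ z * (ρ z * d h v (d h v u) z ^ 2)) + h * K * ∫ z in tsupport ψ, e3 h u z := by
  obtain ⟨S, hS⟩ : ∃ S : Set ℂ, S = tsupport ψ := ⟨_, rfl⟩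
  have hSc : IsCompact S := by rw [hS]; exact hψ.2.1
  have hSB : S ⊆ B := by rw [hS]; exact hψ.2.2
  have z0 : ∀ z, z ∉ S → ψ z = 0 := fun z hz => image_eq_zero_of_notMem_tsupport (by rwa [hS] at hz)
  have z1 : ∀ h v z, z ∉ S → d h v ψ z = 0 := fun h v z hz => by
    unfold d
    rw [fderiv_of_notMem_tsupport ℝ (by rwa [hS] at hz)]
    simp
  have cψ : Continuous ψ := hψ.1.continuous
  have cψ' : ∀ v : ℂ, Continuous (fun z => fderiv ℝ ψ z v) := fun v =>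
    ((hψ.1.fderiv_right (m := ∞) le_rfl).clm_apply contDiff_const).continuous
  have sρ1 : ContDiffOn ℝ ∞ (fun z => fderiv ℝ ρ z v) B := rsd hB hρ v
  have sρ2 : ContDiffOn ℝ ∞ (fun z => fderiv ℝ (fun w => fderiv ℝ ρ w v) z v) B := rsd hB sρ1 v
  obtain ⟨M, M1, hM⟩ := bds hSc [fun z => fderiv ℝ ψ z 1, fun z => fderiv ℝ ψ z I, ψ,
    fun z => fderiv ℝ ρ z v, fun z => fderiv ℝ (fun w => fderiv ℝ ρ w v) z v] (by
    simp only [List.mem_cons, List.not_mem_nil, or_false, forall_eq_or_imp, forall_eq]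
    exact ⟨(cψ' 1).continuousOn, (cψ' I).continuousOn, cψ.continuousOn,
      sρ1.continuousOn.mono hSB, sρ2.continuousOn.mono hSB⟩)
  simp only [List.mem_cons, List.not_mem_nil, or_false, forall_eq_or_imp, forall_eq] at hM
  refine ⟨4 * M ^ 2, by positivity, fun h u hu h1 => ?_⟩
  have hp := hu.hp
  have s0 := hu.su
  have s1 := d_sm hB s0 h v
  have s2 := d_sm hB s1 h v
  have s3 : ∀ w, ContDiffOn ℝ ∞ (d h w (d h v (d h v u))) B := fun w => d_sm hB s2 h w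
  obtain ⟨t1, t2⟩ := T_int hB hψ (s2.mul (s3 1)) h 1
  obtain ⟨t3, t4⟩ := T_int hB hψ (s2.mul (s3 I)) h I
  obtain ⟨iE, eE⟩ := ind_int hSc ((e3_co (h := h) hB s0).mono hSB)
  have iA : Integrable (fun z => ψ z * d h v (d h v (d h v u)) z ^ 2) :=
    rint hSc (cψ.continuousOn.mul (((s3 v).continuousOn.mono hSB).pow 2)) fun z hz => by
      rw [z0 z hz, zero_mul]
  have iR : Integrable (fun z => ψ z * (ρ z * d h v (d h v u) z ^ 2)) :=
    rint hSc (cψ.continuousOn.mul ((hρ.continuousOn.mono hSB).mul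
      ((s2.continuousOn.mono hSB).pow 2))) fun z hz => by rw [z0 z hz, zero_mul]
  rw [← hS, ← eE]
  refine mono3 (a := 1) (b := 1) iA iR t1 t3 iE t2 t4 fun z => ?_
  by_cases hzS : z ∈ S
  · have hz := hSB hzS
    obtain ⟨m1, m2, m3, m4, m5⟩ := hM
    have n1 := absd (h := h) hp (m1 z hzS)
    have n2 := absd (h := h) hp (m2 z hzS)
    have n4 := absd (h := h) hp (m4 z hzS)
    have n3 := m3 z hzS
    have n5 : |d h v (d h v ρ) z| ≤ h * M := by
      have e : d h v (d h v ρ) z = h * (h * fderiv ℝ (fun w => fderiv ℝ ρ w v) z v) := by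
        show h * fderiv ℝ (fun w => h * fderiv ℝ ρ w v) z v = _
        rw [fderiv_const_mul (rdA hB sρ1 hz)]
        simp only [smul_apply, smul_eq_mul]
      rw [e, abs_mul, abs_mul, abs_of_pos hp]
      have h5 := m5 z hzS
      refine mul_le_mul_of_nonneg_left ?_ hp.le
      calc h * |fderiv ℝ (fun w => fderiv ℝ ρ w v) z v| ≤ 1 * M :=
            mul_le_mul h1 h5 (abs_nonneg _) zero_le_one
        _ = M := one_mul M
    have f1 := d_mul (rdA hB s2 hz) (rdA hB (s3 1) hz) h 1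
    have f2 := d_mul (rdA hB s2 hz) (rdA hB (s3 I) hz) h I
    have q := eq_two hB hρ hu hv hz
    have ge := e3_ge h u hv z
    have big : ψ z * d h v (d h v (d h v u)) z ^ 2 ≤
        ψ z * (d h 1 (d h v (d h v u)) z ^ 2 + d h I (d h v (d h v u)) z ^ 2) := by
      refine mul_le_mul_of_nonneg_left ?_ (hψ0 z)
      rcases hv with rfl | rfl
      · nlinarith [sq_nonneg (d h I (d h 1 (d h 1 u)) z)]
      · nlinarith [sq_nonneg (d h 1 (d h I (d h I u)) z)]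
    refine big.trans ?_
    rw [Set.indicator_of_mem hzS]
    unfold T
    rw [f1, f2]
    beta_reduce
    have hK : 0 ≤ h * (4 * M ^ 2) := by positivity
    refine le_trans ?_ (add_le_add_right (mul_le_mul_of_nonneg_left ge hK) _)
    generalize d h 1 (d h 1 (d h v (d h v u))) z = Y1 at *
    generalize d h I (d h I (d h v (d h v u))) z = Y2 at *
    generalize d h 1 (d h v (d h v u)) z = W1 at *
    generalize d h I (d h v (d h v u)) z = W2 at *
    generalize d h v (d h v u) z = V at *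
    generalize d h v u z = P at *
    generalize u z = U at *
    generalize d h v (d h v ρ) z = r2 at *
    generalize d h v ρ z = r1 at *
    generalize d h 1 ψ z = a1 at *
    generalize d h I ψ z = a2 at *
    generalize hf : ψ z = f at *
    have f0 : 0 ≤ f := by rw [← hf]; exact hψ0 z
    have hM0 : 0 ≤ h * M := by positivity
    have two : ∀ x y : ℝ, |x * y| ≤ (x ^ 2 + y ^ 2) / 2 := fun x y => by
      rw [abs_mul, ← sq_abs x, ← sq_abs y]
      nlinarith [sq_nonneg (|x| - |y|)]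
    have A1 : |a1 * (V * W1)| ≤ (h * M) * ((V ^ 2 + W1 ^ 2) / 2) := by
      rw [abs_mul]
      exact mul_le_mul n1 (two _ _) (abs_nonneg _) hM0
    have A2 : |a2 * (V * W2)| ≤ (h * M) * ((V ^ 2 + W2 ^ 2) / 2) := by
      rw [abs_mul]
      exact mul_le_mul n2 (two _ _) (abs_nonneg _) hM0
    have fr1 : |f * r1| ≤ h * M ^ 2 := by
      rw [abs_mul]
      calc |f| * |r1| ≤ M * (h * M) := mul_le_mul n3 n4 (abs_nonneg _) (by positivity)
        _ = h * M ^ 2 := by ring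
    have fr2 : |f * r2| ≤ h * M ^ 2 := by
      rw [abs_mul]
      calc |f| * |r2| ≤ M * (h * M) := mul_le_mul n3 n5 (abs_nonneg _) (by positivity)
        _ = h * M ^ 2 := by ring
    have A3 : |(f * r1) * (V * P)| ≤ (h * M ^ 2) * ((V ^ 2 + P ^ 2) / 2) := by
      rw [abs_mul]
      exact mul_le_mul fr1 (two _ _) (abs_nonneg _) (by positivity)
    have A4 : |(f * r2) * (V * U)| ≤ (h * M ^ 2) * ((V ^ 2 + U ^ 2) / 2) := by
      rw [abs_mul]
      exact mul_le_mul fr2 (two _ _) (abs_nonneg _) (by positivity)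
    have A1' := neg_abs_le (a1 * (V * W1))
    have A2' := neg_abs_le (a2 * (V * W2))
    have A3' := le_abs_self ((f * r1) * (V * P))
    have A4' := le_abs_self ((f * r2) * (V * U))
    have MM : h * M ≤ h * M ^ 2 := by
      refine mul_le_mul_of_nonneg_left ?_ hp.le
      nlinarith
    have e1 : f * (W1 ^ 2 + W2 ^ 2) = f * (ρ z * V ^ 2) +
        (f * (W1 * W1 + V * Y1) + a1 * (V * W1)) +
        (f * (W2 * W2 + V * Y2) + a2 * (V * W2)) - a1 * (V * W1) - a2 * (V * W2) +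
        2 * ((f * r1) * (V * P)) + (f * r2) * (V * U) := by
      have y2 : Y2 = -(ρ z * V) - 2 * (r1 * P) - r2 * U - Y1 := by linarith
      rw [y2]; ring
    have B1 : (h * M) * ((V ^ 2 + W1 ^ 2) / 2) ≤ (h * M ^ 2) * ((V ^ 2 + W1 ^ 2) / 2) :=
      mul_le_mul_of_nonneg_right MM (by positivity)
    have B2 : (h * M) * ((V ^ 2 + W2 ^ 2) / 2) ≤ (h * M ^ 2) * ((V ^ 2 + W2 ^ 2) / 2) :=
      mul_le_mul_of_nonneg_right MM (by positivity)
    have B3 : 0 ≤ (h * M ^ 2) * (U ^ 2 * (7 / 2) + P ^ 2 * 3 + V ^ 2 * (3 / 2) +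
        W1 ^ 2 * (7 / 2) + W2 ^ 2 * (7 / 2)) := by positivity
    have e4 : h * (4 * M ^ 2) * (U ^ 2 + P ^ 2 + V ^ 2 + W1 ^ 2 + W2 ^ 2) =
        (h * M ^ 2) * ((V ^ 2 + W1 ^ 2) / 2) + (h * M ^ 2) * ((V ^ 2 + W2 ^ 2) / 2) +
        2 * ((h * M ^ 2) * ((V ^ 2 + P ^ 2) / 2)) + (h * M ^ 2) * ((V ^ 2 + U ^ 2) / 2) +
        (h * M ^ 2) * (U ^ 2 * (7 / 2) + P ^ 2 * 3 + V ^ 2 * (3 / 2) +
        W1 ^ 2 * (7 / 2) + W2 ^ 2 * (7 / 2)) := by ring
    rw [e1, e4]
    linarith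
  · unfold T
    rw [z0 z hzS, z1 h 1 z hzS, z1 h I z hzS, Set.indicator_of_notMem hzS]
    simp

end

end Pool.Agent.E8helper19.LW
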