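import Mathlib

/-!
Measure theory: from `∫_K |x|^(3/2) dν ≤ C √|K|` for compact `K` to Borel sets, weak `L²` and `L^p`.
-/

set_option autoImplicit false
open MeasureTheory Filter Topology
open scoped ENNReal

namespace Pool.Agent.E8helper19.LW

noncomputable section

lemma borel_of_compact {ν : Measure ℝ} [IsFiniteMeasure ν] {C : ℝ}
    (base : ∀ (K : Set ℝ) (δ : ℝ), IsCompact K → 0 < δ → volume K < ENNReal.ofReal δ →
      ∫ x in K, |x| * √|x| ∂ν ≤ C * √δ) {K : Set ℝ} (mK : MeasurableSet K) (fK : volume K ≠ ⊤) :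
    ∫⁻ x in K, ENNReal.ofReal (|x| * √|x|) ∂ν ≤ ENNReal.ofReal (C * √(volume K).toReal) := by
  obtain ⟨w, hw⟩ : ∃ w : ℝ → ℝ, w = fun x => |x| * √|x| := ⟨_, rfl⟩
  have cw : Continuous w := by rw [hw]; fun_prop
  have w0 : ∀ x, 0 ≤ w x := fun x => by rw [hw]; positivity
  -- compact sets
  have comp : ∀ L : Set ℝ, IsCompact L → L ⊆ K →
      ∫⁻ x in L, ENNReal.ofReal (w x) ∂ν ≤ ENNReal.ofReal (C * √(volume K).toReal) := by
    intro L hL hLK
    have fL : volume L ≤ volume K := measure_mono hLK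
    have iL : IntegrableOn w L ν := cw.continuousOn.integrableOn_compact hL
    rw [← ofReal_integral_eq_lintegral_ofReal iL (ae_of_all _ w0)]
    refine ENNReal.ofReal_le_ofReal ?_
    have h1 : ∀ ε : ℝ, 0 < ε → ∫ x in L, w x ∂ν ≤ C * √((volume K).toReal + ε) := by
      intro ε hε
      rw [hw]
      refine base L _ hL (by positivity) (fL.trans_lt ?_)
      rw [ENNReal.lt_ofReal_iff_toReal_lt fK]
      linarith
    have lim : Tendsto (fun ε : ℝ => C * √((volume K).toReal + ε)) (𝓝[>] 0)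
        (𝓝 (C * √((volume K).toReal + 0))) := by
      refine Tendsto.mono_left ?_ nhdsWithin_le_nhds
      refine Continuous.tendsto (f := fun ε : ℝ => C * √((volume K).toReal + ε)) ?_ 0
      fun_prop
    rw [add_zero] at lim
    exact ge_of_tendsto lim (eventually_nhdsWithin_of_forall fun ε hε => h1 ε hε)
  -- the measure with density `w`
  obtain ⟨m, hm⟩ : ∃ m : Measure ℝ, m = ν.withDensity fun x => ENNReal.ofReal (w x) := ⟨_, rfl⟩
  have m1 : ∀ s, MeasurableSet s → m s = ∫⁻ x in s, ENNReal.ofReal (w x) ∂ν := fun s hs => by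
    rw [hm, withDensity_apply _ hs]
  have lf : IsLocallyFiniteMeasure m := by
    rw [hm]
    exact IsLocallyFiniteMeasure.withDensity_ofReal cw
  have e1 : ∫⁻ x in K, ENNReal.ofReal (|x| * √|x|) ∂ν = m K := by rw [m1 K mK, hw]
  rw [e1]
  rw [mK.measure_eq_iSup_isCompact]
  refine iSup_le fun L => iSup_le fun hLK => iSup_le fun hL => ?_
  rw [m1 L hL.measurableSet]
  exact comp L hL hLK

lemma ac_of_borel {ν : Measure ℝ} {C : ℝ}
    (hB : ∀ K : Set ℝ, MeasurableSet K → volume K ≠ ⊤ →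
      ∫⁻ x in K, ENNReal.ofReal (|x| * √|x|) ∂ν ≤ ENNReal.ofReal (C * √(volume K).toReal)) :
    ν.restrict {0}ᶜ ≪ volume := by
  intro s hs
  obtain ⟨t, hst, tm, t0⟩ := exists_measurable_superset_of_null hs
  rw [Measure.restrict_apply₀' (measurableSet_singleton (0 : ℝ)).compl.nullMeasurableSet]
  have h1 := hB t tm (by rw [t0]; exact ENNReal.zero_ne_top)
  rw [t0, ENNReal.toReal_zero, Real.sqrt_zero, mul_zero, ENNReal.ofReal_zero, nonpos_iff_eq_zero,
    lintegral_eq_zero_iff (by fun_prop)] at h1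
  have h2 : ∀ᵐ x ∂ν, x ∈ t → x = 0 := by
    rw [Filter.EventuallyEq, ae_restrict_iff' tm] at h1
    filter_upwards [h1] with x hx hxt
    have h3 := hx hxt
    simp only [Pi.zero_apply, ENNReal.ofReal_eq_zero] at h3
    by_contra hne
    have h4 : 0 < |x| := abs_pos.2 hne
    have : 0 < |x| * √|x| := by positivity
    linarith
  have h3 := ae_iff.1 h2
  refine measure_mono_null ?_ h3
  intro x hx
  simp only [Set.mem_setOf_eq, Classical.not_imp]
  exact ⟨hst hx.1, hx.2⟩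

lemma weak_of_borel {ν : Measure ℝ} [IsFiniteMeasure ν] {C : ℝ} (C0 : 0 ≤ C)
    (hB : ∀ K : Set ℝ, MeasurableSet K → volume K ≠ ⊤ →
      ∫⁻ x in K, ENNReal.ofReal (|x| * √|x|) ∂ν ≤ ENNReal.ofReal (C * √(volume K).toReal)) :
    ∃ f : ℝ → ℝ, Measurable f ∧ (∀ x, 0 ≤ f x) ∧
      ν.restrict {0}ᶜ = volume.withDensity (fun x => ENNReal.ofReal (f x)) ∧
      ∀ a s : ℝ, 0 < a → 0 < s →
        volume {x : ℝ | a ≤ |x| ∧ s ≤ f x} ≤ ENNReal.ofReal (C ^ 2 / (a ^ 3 * s ^ 2)) := by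
  have ac := ac_of_borel hB
  obtain ⟨f, hf⟩ : ∃ f : ℝ → ℝ, f = fun x => ((ν.restrict {0}ᶜ).rnDeriv volume x).toReal :=
    ⟨_, rfl⟩
  have mf : Measurable f := by rw [hf]; exact (Measure.measurable_rnDeriv _ _).ennreal_toReal
  have f0 : ∀ x, 0 ≤ f x := fun x => by rw [hf]; exact ENNReal.toReal_nonneg
  have ff : ν.restrict {0}ᶜ = volume.withDensity (fun x => ENNReal.ofReal (f x)) := by
    conv_lhs => rw [← Measure.withDensity_rnDeriv_eq _ _ ac]
    refine withDensity_congr_ae ?_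
    filter_upwards [Measure.rnDeriv_lt_top (ν.restrict {0}ᶜ) volume] with x hx
    rw [hf]
    exact (ENNReal.ofReal_toReal hx.ne).symm
  refine ⟨f, mf, f0, ff, fun a s ha hs => ?_⟩
  obtain ⟨A, hA⟩ : ∃ A : Set ℝ, A = {x : ℝ | a ≤ |x| ∧ s ≤ f x} := ⟨_, rfl⟩
  have mA : MeasurableSet A := by
    rw [hA]
    exact (measurableSet_le measurable_const continuous_abs.measurable).inter
      (measurableSet_le measurable_const mf)
  have A0 : A ⊆ {0}ᶜ := fun x hx => by
    rw [hA] at hx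
    intro h0
    rw [Set.mem_singleton_iff] at h0
    rw [h0, Set.mem_setOf_eq, abs_zero] at hx
    linarith [hx.1]
  rw [← hA]
  have e1 : ENNReal.ofReal s * volume A ≤ ν A := by
    have h1 : ν A = (ν.restrict {0}ᶜ) A := (Measure.restrict_eq_self _ A0).symm
    rw [h1, ff, withDensity_apply _ mA, ← setLIntegral_const]
    refine setLIntegral_mono' mA fun x hx => ?_
    rw [hA] at hx
    exact ENNReal.ofReal_le_ofReal hx.2
  have fA : volume A ≠ ⊤ := by
    intro h
    rw [h, ENNReal.mul_top (by rw [Ne, ENNReal.ofReal_eq_zero]; linarith)] at e1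
    exact measure_ne_top ν A (top_le_iff.1 e1)
  have e2 : ENNReal.ofReal (a * √a) * ν A ≤ ENNReal.ofReal (C * √(volume A).toReal) := by
    refine le_trans ?_ (hB A mA fA)
    rw [← setLIntegral_const]
    refine setLIntegral_mono' mA fun x hx => ENNReal.ofReal_le_ofReal ?_
    rw [hA] at hx
    exact mul_le_mul hx.1 (Real.sqrt_le_sqrt hx.1) (Real.sqrt_nonneg _) (abs_nonneg _)
  obtain ⟨v, hv⟩ : ∃ v : ℝ, v = (volume A).toReal := ⟨_, rfl⟩
  have v0 : 0 ≤ v := by rw [hv]; exact ENNReal.toReal_nonneg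
  have Av : volume A = ENNReal.ofReal v := by rw [hv, ENNReal.ofReal_toReal fA]
  rw [← hv] at e2
  have e3 : ENNReal.ofReal (a * √a * (s * v)) ≤ ENNReal.ofReal (C * √v) := by
    rw [ENNReal.ofReal_mul (by positivity), ENNReal.ofReal_mul hs.le, ← Av]
    exact (mul_le_mul_right e1 _).trans e2
  have e4 : a * √a * (s * v) ≤ C * √v :=
    (ENNReal.ofReal_le_ofReal_iff (by positivity)).1 e3
  rw [Av]
  refine ENNReal.ofReal_le_ofReal ?_
  rw [le_div_iff₀ (by positivity)]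
  obtain ⟨r, hr⟩ : ∃ r, r = √v := ⟨_, rfl⟩
  have r0 : 0 ≤ r := by rw [hr]; positivity
  have rr : r ^ 2 = v := by rw [hr, Real.sq_sqrt v0]
  obtain ⟨b, hb⟩ : ∃ b, b = √a := ⟨_, rfl⟩
  have b0 : 0 < b := by rw [hb]; positivity
  have bb : b ^ 2 = a := by rw [hb, Real.sq_sqrt ha.le]
  rw [← hr, ← hb, ← rr] at e4
  rw [← rr]
  rcases r0.eq_or_lt with h | h
  · rw [← h]; simp; positivity
  · have h2 : a * b * s * r ≤ C := by
      have : a * b * s * r * r ≤ C * r := by nlinarith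
      exact le_of_mul_le_mul_right this h
    have h3 : (a * b * s * r) ^ 2 ≤ C ^ 2 := pow_le_pow_left₀ (by positivity) h2 2
    have h4 : (a * b * s * r) ^ 2 = r ^ 2 * (a ^ 3 * s ^ 2) := by
      have : (a * b * s * r) ^ 2 = r ^ 2 * (a ^ 2 * b ^ 2 * s ^ 2) := by ring
      rw [this, bb]; ring
    rw [← h4]; exact h3

/-- weak `L²` and finite mass give `L^p` for `1 ≤ p < 2` -/
lemma lp_of_weak {f : ℝ → ℝ} (mf : Measurable f) (f0 : ∀ x, 0 ≤ f x)
    (hfin : ∫⁻ x, ENNReal.ofReal (f x) ≠ ⊤) {D a p : ℝ} (D0 : 0 ≤ D) (h1p : 1 ≤ p) (hp2 : p < 2)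
    (hw : ∀ s : ℝ, 0 < s → volume {x : ℝ | a ≤ |x| ∧ s ≤ f x} ≤ ENNReal.ofReal (D / s ^ 2)) :
    ∫⁻ x in {x : ℝ | a ≤ |x|}, ENNReal.ofReal (f x ^ p) < ⊤ := by
  obtain ⟨m, hm⟩ : ∃ m : Measure ℝ, m = volume.restrict {x : ℝ | a ≤ |x|} := ⟨_, rfl⟩
  have ma : MeasurableSet {x : ℝ | a ≤ |x|} :=
    measurableSet_le measurable_const continuous_abs.measurable
  have mw : ∀ s : ℝ, 0 < s → m {x : ℝ | s ≤ f x} ≤ ENNReal.ofReal (D / s ^ 2) := by
    intro s hs
    rw [hm, Measure.restrict_apply' ma]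
    refine le_trans (measure_mono ?_) (hw s hs)
    intro x hx
    exact ⟨hx.2, hx.1⟩
  have p0 : 0 < p := by linarith
  rw [← hm, lintegral_rpow_eq_lintegral_meas_le_mul m (ae_of_all _ f0) mf.aemeasurable p0]
  refine ENNReal.mul_lt_top ENNReal.ofReal_lt_top ?_
  have split : Set.Ioi (0 : ℝ) = Set.Ioc 0 1 ∪ Set.Ioi 1 := (Set.Ioc_union_Ioi_eq_Ioi (by norm_num)).symm
  rw [split]
  refine (lintegral_union_le _ _ _).trans_lt (ENNReal.add_lt_top.2 ⟨?_, ?_⟩)
  · have h1 : ∫⁻ t in Set.Ioc (0 : ℝ) 1, m {a | t ≤ f a} * ENNReal.ofReal (t ^ (p - 1)) ≤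
        ∫⁻ t in Set.Ioi (0 : ℝ), m {a | t ≤ f a} := by
      refine le_trans (setLIntegral_mono' measurableSet_Ioc fun t ht => ?_)
        (lintegral_mono_set Set.Ioc_subset_Ioi_self)
      have : t ^ (p - 1) ≤ 1 := Real.rpow_le_one ht.1.le ht.2 (by linarith)
      calc m {a | t ≤ f a} * ENNReal.ofReal (t ^ (p - 1)) ≤ m {a | t ≤ f a} * 1 := by
            refine mul_le_mul_right ?_ _
            rw [← ENNReal.ofReal_one]; exact ENNReal.ofReal_le_ofReal this
        _ = _ := mul_one _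
    refine h1.trans_lt ?_
    rw [← lintegral_eq_lintegral_meas_le m (ae_of_all _ f0) mf.aemeasurable, hm]
    exact (setLIntegral_le_lintegral _ _).trans_lt (lt_top_iff_ne_top.2 hfin)
  · have h1 : ∫⁻ t in Set.Ioi (1 : ℝ), m {a | t ≤ f a} * ENNReal.ofReal (t ^ (p - 1)) ≤
        ∫⁻ t in Set.Ioi (1 : ℝ), ENNReal.ofReal (D * t ^ (p - 3)) := by
      refine setLIntegral_mono' measurableSet_Ioi fun t ht => ?_
      have t0 : 0 < t := lt_trans one_pos ht
      calc m {a | t ≤ f a} * ENNReal.ofReal (t ^ (p - 1)) ≤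
            ENNReal.ofReal (D / t ^ 2) * ENNReal.ofReal (t ^ (p - 1)) :=
            mul_le_mul_left (mw t t0) _
        _ = ENNReal.ofReal (D * t ^ (p - 3)) := by
            rw [← ENNReal.ofReal_mul (by positivity)]
            congr 1
            have : t ^ (p - 1) = t ^ (p - 3) * t ^ (2 : ℕ) := by
              rw [← Real.rpow_natCast, ← Real.rpow_add t0]; congr 1; push_cast; ring
            rw [this]; field_simp
    refine h1.trans_lt ?_
    have i1 : IntegrableOn (fun t : ℝ => D * t ^ (p - 3)) (Set.Ioi 1) :=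
      (integrableOn_Ioi_rpow_of_lt (by linarith) one_pos).const_mul D
    have h2 := i1.2
    rw [hasFiniteIntegral_iff_norm] at h2
    refine lt_of_le_of_lt ?_ h2
    exact lintegral_mono fun t => ENNReal.ofReal_le_ofReal (le_abs_self _)

end

end Pool.Agent.E8helper19.LW
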