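import Mathlib

/-!
Limit laws of `cos (n x)`: the arcsine law.
-/

set_option autoImplicit false
open MeasureTheory Filter Topology Complex Function
open scoped ENNReal ContDiff

namespace Pool.Agent.E8helper19.LW

noncomputable section

/-- averaging of a periodic function -/
lemma avg_per {G : ℝ → ℝ} (hG : Continuous G) (hper : Periodic G (2 * Real.pi)) {φ : ℂ → ℝ}
    (sφ : ContDiff ℝ ∞ φ) (cφ : HasCompactSupport φ) :
    Tendsto (fun n : ℕ => ∫ z : ℂ, φ z * G (n * z.re)) atTop
      (𝓝 ((∫ z, φ z) * ((2 * Real.pi)⁻¹ * ∫ t in (0 : ℝ)..(2 * Real.pi), G t))) := by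
  have hpi := Real.pi_pos
  obtain ⟨M, hM⟩ : ∃ M : ℝ, M = (2 * Real.pi)⁻¹ * ∫ t in (0 : ℝ)..(2 * Real.pi), G t := ⟨_, rfl⟩
  rw [← hM]
  obtain ⟨Q, hQ⟩ : ∃ Q : ℝ → ℝ, Q = fun x => G x - M := ⟨_, rfl⟩
  have cQ : Continuous Q := by rw [hQ]; fun_prop
  have pQ : Periodic Q (2 * Real.pi) := fun x => by rw [hQ]; show G _ - M = G x - M; rw [hper x]
  have iQ : ∀ x : ℝ, ∫ t in x..(x + 2 * Real.pi), Q t = 0 := by
    intro x
    rw [pQ.intervalIntegral_add_eq x 0, zero_add, hQ,
      intervalIntegral.integral_sub (hG.intervalIntegrable _ _) intervalIntegrable_const,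
      intervalIntegral.integral_const, hM, smul_eq_mul, sub_zero]
    field_simp
    ring
  obtain ⟨H, hH⟩ : ∃ H : ℝ → ℝ, H = fun x => ∫ t in (0 : ℝ)..x, Q t := ⟨_, rfl⟩
  have dH : ∀ x, HasDerivAt H (Q x) x := fun x => by
    rw [hH]
    exact intervalIntegral.integral_hasDerivAt_right (cQ.intervalIntegrable _ _)
      (cQ.stronglyMeasurableAtFilter _ _) cQ.continuousAt
  have cH : Continuous H := continuous_iff_continuousAt.2 fun x => (dH x).continuousAt
  have pH : Periodic H (2 * Real.pi) := fun x => by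
    rw [hH]
    show ∫ t in (0 : ℝ)..(x + 2 * Real.pi), Q t = ∫ t in (0 : ℝ)..x, Q t
    rw [← intervalIntegral.integral_add_adjacent_intervals (b := x)
      (cQ.intervalIntegrable _ _) (cQ.intervalIntegrable _ _), iQ, add_zero]
  obtain ⟨b, hb⟩ := (pH.isBounded_of_continuous (by positivity) cH).exists_norm_le
  have hb' : ∀ x, |H x| ≤ b := fun x => hb _ ⟨x, rfl⟩
  have b0 : 0 ≤ b := (abs_nonneg _).trans (hb' 0)
  have cd : Continuous (fun z => fderiv ℝ φ z 1) :=
    ((sφ.fderiv_right (m := ∞) le_rfl).clm_apply contDiff_const).continuous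
  have sd : HasCompactSupport (fun z => fderiv ℝ φ z 1) := by
    refine HasCompactSupport.mono' (f := φ) cφ ?_
    intro z hz
    by_contra h
    exact hz (by show fderiv ℝ φ z 1 = 0; rw [fderiv_of_notMem_tsupport ℝ h]; rfl)
  have iφ : Integrable φ := sφ.continuous.integrable_of_hasCompactSupport cφ
  obtain ⟨A, hA⟩ : ∃ A : ℝ, A = ∫ z, |fderiv ℝ φ z 1| := ⟨_, rfl⟩
  have key : ∀ n : ℕ, 0 < n → |(∫ z : ℂ, φ z * G (n * z.re)) - (∫ z, φ z) * M| ≤
      (b * A) * (1 / (n : ℝ)) := by
    intro n hn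
    have n0 : (0 : ℝ) < n := by exact_mod_cast hn
    have cre : Continuous (fun z : ℂ => (n : ℝ) * z.re) := continuous_const.mul continuous_re
    have i1 : Integrable (fun z : ℂ => φ z * G (n * z.re)) :=
      (sφ.continuous.mul (hG.comp cre)).integrable_of_hasCompactSupport cφ.mul_right
    have e1 : (∫ z : ℂ, φ z * G (n * z.re)) - (∫ z, φ z) * M = ∫ z : ℂ, φ z * Q (n * z.re) := by
      rw [← integral_mul_const, ← integral_sub i1 (iφ.mul_const M)]
      congr 1; funext z; rw [hQ]; ring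
    obtain ⟨K, hK⟩ : ∃ K : ℂ → ℝ, K = fun z => H (n * z.re) := ⟨_, rfl⟩
    have dK : ∀ z, HasFDerivAt K ((Q (n * z.re)) • ((n : ℝ) • reCLM)) z := by
      intro z
      have h1 : HasFDerivAt (fun z : ℂ => (n : ℝ) * z.re) ((n : ℝ) • reCLM) z :=
        (reCLM.hasFDerivAt).const_mul (n : ℝ)
      rw [hK]
      exact (dH (n * z.re)).comp_hasFDerivAt z h1
    have cK : Continuous K := by rw [hK]; exact cH.comp cre
    have vK : ∀ z, fderiv ℝ K z 1 = n * Q (n * z.re) := fun z => by
      rw [(dK z).fderiv]; simp [mul_comm]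
    have ibp := integral_mul_fderiv_eq_neg_fderiv_mul_of_integrable (μ := (volume : Measure ℂ))
      (f := φ) (g := K) (v := (1 : ℂ))
      ((cd.mul cK).integrable_of_hasCompactSupport sd.mul_right)
      (by
        simp_rw [vK]
        exact (sφ.continuous.mul (continuous_const.mul (cQ.comp cre))).integrable_of_hasCompactSupport
          cφ.mul_right)
      ((sφ.continuous.mul cK).integrable_of_hasCompactSupport cφ.mul_right)
      (fun z _ => sφ.differentiable (by simp) z) (fun z _ => (dK z).differentiableAt)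
    simp_rw [vK] at ibp
    have e2 : ∫ z : ℂ, φ z * (n * Q (n * z.re)) = n * ∫ z : ℂ, φ z * Q (n * z.re) := by
      rw [← integral_const_mul]; congr 1; funext z; ring
    rw [e2] at ibp
    have e3 : ∫ z : ℂ, φ z * Q (n * z.re) = -(1 / (n : ℝ)) * ∫ z, fderiv ℝ φ z 1 * K z := by
      field_simp
      linarith
    rw [e1, e3, abs_mul, abs_neg, abs_of_pos (by positivity : 0 < 1 / (n : ℝ)), mul_comm]
    refine mul_le_mul_of_nonneg_right ?_ (by positivity)
    refine abs_integral_le_integral_abs.trans ?_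
    rw [hA, ← integral_const_mul]
    refine integral_mono ((cd.mul cK).abs.integrable_of_hasCompactSupport sd.mul_right.abs)
      ((cd.abs.integrable_of_hasCompactSupport sd.abs).const_mul b) fun z => ?_
    show |fderiv ℝ φ z 1 * K z| ≤ b * |fderiv ℝ φ z 1|
    rw [abs_mul, mul_comm b]
    refine mul_le_mul_of_nonneg_left ?_ (abs_nonneg _)
    rw [hK]; exact hb' _
  rw [tendsto_iff_norm_sub_tendsto_zero]
  have lim : Tendsto (fun n : ℕ => (b * A) * (1 / (n : ℝ))) atTop (𝓝 ((b * A) * 0)) :=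
    tendsto_one_div_atTop_nhds_zero_nat.const_mul _
  rw [mul_zero] at lim
  refine squeeze_zero' (Eventually.of_forall fun n => norm_nonneg _) ?_ lim
  filter_upwards [eventually_gt_atTop 0] with n hn
  exact key n hn

/-- the arcsine law -/
def arcs : Measure ℝ :=
  ((ENNReal.ofReal (2 * Real.pi)⁻¹) • volume.restrict (Set.Ioc 0 (2 * Real.pi))).map Real.cos

lemma arcs_prob : IsProbabilityMeasure arcs := by
  have hpi := Real.pi_pos
  constructor
  unfold arcs
  rw [Measure.map_apply Real.measurable_cos MeasurableSet.univ, Set.preimage_univ,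
    Measure.smul_apply, Measure.restrict_apply_univ, Real.volume_Ioc, sub_zero, smul_eq_mul,
    ← ENNReal.ofReal_mul (by positivity), inv_mul_cancel₀ (by positivity), ENNReal.ofReal_one]

lemma arcs_int {g : ℝ → ℝ} (hg : Continuous g) :
    ∫ x, g x ∂arcs = (2 * Real.pi)⁻¹ * ∫ t in (0 : ℝ)..(2 * Real.pi), g (Real.cos t) := by
  have hpi := Real.pi_pos
  unfold arcs
  rw [integral_map Real.measurable_cos.aemeasurable hg.aestronglyMeasurable, integral_smul_measure,
    ENNReal.toReal_ofReal (by positivity), smul_eq_mul,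
    intervalIntegral.integral_of_le (by positivity)]

lemma arcs_mass {δ : ℝ} (hδ : 0 < δ) (hδ1 : δ ≤ 1) :
    √δ / 5 ≤ (arcs (Set.Icc (1 - δ) 1)).toReal := by
  have hpi := Real.pi_pos
  have := arcs_prob
  have h2 : √(2 * δ) ≤ 2 * Real.pi := by
    rw [Real.sqrt_le_left (by positivity)]
    have := Real.pi_gt_three
    nlinarith
  have h1 : ENNReal.ofReal ((2 * Real.pi)⁻¹ * √(2 * δ)) ≤ arcs (Set.Icc (1 - δ) 1) := by
    unfold arcs
    rw [Measure.map_apply Real.measurable_cos measurableSet_Icc, Measure.smul_apply, smul_eq_mul,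
      ENNReal.ofReal_mul (by positivity)]
    refine mul_le_mul_right ?_ _
    rw [Measure.restrict_apply (Real.measurable_cos measurableSet_Icc)]
    have e1 : ENNReal.ofReal √(2 * δ) = volume (Set.Ioc 0 √(2 * δ)) := by
      rw [Real.volume_Ioc, sub_zero]
    rw [e1]
    refine measure_mono fun t ht => ⟨⟨?_, Real.cos_le_one t⟩, ht.1, ht.2.trans h2⟩
    have h3 := Real.one_sub_sq_div_two_le_cos (x := t)
    have h4 : t ^ 2 ≤ 2 * δ := by
      have := pow_le_pow_left₀ ht.1.le ht.2 2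
      rwa [Real.sq_sqrt (by positivity)] at this
    linarith
  have h3 := ENNReal.toReal_mono (measure_ne_top _ _) h1
  rw [ENNReal.toReal_ofReal (by positivity)] at h3
  refine le_trans ?_ h3
  rw [Real.sqrt_mul (by norm_num)]
  have h5 : (7 / 5 : ℝ) ≤ √2 := Real.le_sqrt_of_sq_le (by norm_num)
  have h6 : (1 / 5 : ℝ) ≤ (2 * Real.pi)⁻¹ * √2 := by
    rw [inv_mul_eq_div, le_div_iff₀ (by positivity)]
    have := Real.pi_lt_d2
    linarith
  have h7 : 0 ≤ √δ := Real.sqrt_nonneg _
  nlinarith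

/-- the plane waves -/
def wave (n : ℕ) (z : ℂ) : ℝ := Real.cos (n * z.re)

lemma re_fderiv {F : ℝ → ℝ} {F' : ℝ} {z : ℂ} (n : ℝ) (hF : HasDerivAt F F' (n * z.re)) (v : ℂ) :
    fderiv ℝ (fun w : ℂ => F (n * w.re)) z v = n * F' * v.re := by
  have h1 : HasFDerivAt (fun z : ℂ => n * z.re) (n • reCLM) z := (reCLM.hasFDerivAt).const_mul n
  have h2 := hF.comp_hasFDerivAt z h1
  have h3 : fderiv ℝ (fun w : ℂ => F (n * w.re)) z = F' • (n • reCLM) := h2.fderiv
  rw [h3]; simp; ring

lemma wave_lapl (n : ℕ) (z : ℂ) :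
    fderiv ℝ (fun w => fderiv ℝ (wave n) w 1) z 1 + fderiv ℝ (fun w => fderiv ℝ (wave n) w I) z I =
      -((n : ℝ) ^ 2 * wave n z) := by
  have e1 : ∀ v : ℂ, (fun w => fderiv ℝ (wave n) w v) =
      fun w : ℂ => (fun x => n * (-Real.sin x) * v.re) (n * w.re) := fun v => by
    funext w
    exact re_fderiv (n : ℝ) (Real.hasDerivAt_cos _) v
  have e2 : ∀ v : ℂ, fderiv ℝ (fun w => fderiv ℝ (wave n) w v) z v =
      n * (n * (-Real.cos (n * z.re)) * v.re) * v.re := fun v => by
    rw [e1 v]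
    refine re_fderiv (F := fun x => n * (-Real.sin x) * v.re) (n : ℝ) ?_ v
    exact (((Real.hasDerivAt_sin _).neg).const_mul _).mul_const _
  rw [e2, e2]
  simp [wave]
  ring

lemma wave_smooth (n : ℕ) : ContDiff ℝ ∞ (wave n) := by
  unfold wave
  exact Real.contDiff_cos.comp (contDiff_const.mul reCLM.contDiff)

end

end Pool.Agent.E8helper19.LW
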