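import Pool.Agent.E8helper19.LW.Univ

/-!
The inequality `∫ φ g(u) |u|^(3/2) dvol ≤ √δ (42 (∫ φ dvol)^(1/2) (∫ φ u² dvol)^(1/2) + o(1))`.
-/

set_option autoImplicit false
open MeasureTheory Filter Topology Complex
open scoped ContDiff ENNReal

namespace Pool.Agent.E8helper19.LW

open Pool.Agent.W745.RW Pool.Agent.TH294.RS Pool.Agent.TH294.RG Pool.Agent.TH421.DF
open Pool.Agent.TH421.AC Pool.Agent.Y139.PD

noncomputable section

variable {B : Set ℂ}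

lemma e3_nonneg (h : ℝ) (u : ℂ → ℝ) (z : ℂ) : 0 ≤ e3 h u z := by unfold e3 e2; positivity

lemma e2_le_e3 (h : ℝ) (u : ℂ → ℝ) (z : ℂ) : e2 h u z ≤ e3 h u z := by
  unfold e3
  have : 0 ≤ (d h 1 (d h 1 (d h 1 u)) z ^ 2 + d h I (d h 1 (d h 1 u)) z ^ 2) +
    (d h 1 (d h I (d h I u)) z ^ 2 + d h I (d h I (d h I u)) z ^ 2) := by positivity
  linarith

lemma tsupp_mul (φ a : ℂ → ℝ) : tsupport (fun z => φ z * a z) ⊆ tsupport φ :=
  closure_mono fun z hz hz' => hz (by show φ z * a z = 0; rw [hz', zero_mul])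

lemma int_sub {S T : Set ℂ} (hT : IsCompact T) (hTB : T ⊆ B) (hST : S ⊆ T) {F G : ℂ → ℝ}
    (cF : ContinuousOn F B) (cG : ContinuousOn G B) (F0 : ∀ z, 0 ≤ F z) (hFG : ∀ z, F z ≤ G z) :
    ∫ z in S, F z ≤ ∫ z in T, G z := by
  refine (setIntegral_mono_set ((cF.mono hTB).integrableOn_compact hT) (ae_of_all _ F0)
    hST.eventuallyLE).trans ?_
  exact setIntegral_mono_on ((cF.mono hTB).integrableOn_compact hT)
    ((cG.mono hTB).integrableOn_compact hT) hT.measurableSet fun z _ => hFG z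

/-- one direction -/
theorem U0 (hB : IsOpen B) {φ ρ : ℂ → ℝ} (hφ : TF B φ) (hφ0 : ∀ z, 0 ≤ φ z)
    (hρ : ContDiffOn ℝ ∞ ρ B) (ρ0 : ∀ z ∈ B, 0 < ρ z) {v : ℂ} (hv : v = 1 ∨ v = I) :
    ∃ K : ℝ, 0 ≤ K ∧ ∀ (h : ℝ) (u : ℂ → ℝ), Sol B h ρ u → h ≤ 1 → ∀ (g : ℝ → ℝ) (δ : ℝ),
      ContDiff ℝ ∞ g → (∀ x, 0 ≤ g x) → (∀ x, g x ≤ 1) → 0 < δ → (∀ x, |Pr g x| ≤ δ) →
      ∫ z, (φ z * (√(ρ z))⁻¹) * (g (u z) * (|d h v (d h v u) z| * √|d h v (d h v u) z|)) ≤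
        √δ * (7 * √((∫ z, φ z * ρ z) * ((∫ z, φ z * (ρ z * u z ^ 2)) +
          h * K * ∫ z in tsupport φ, e3 h u z)) +
        h * K * ((∫ z in tsupport φ, (1 : ℝ)) + ∫ z in tsupport φ, e3 h u z)) := by
  obtain ⟨S, hS⟩ : ∃ S : Set ℂ, S = tsupport φ := ⟨_, rfl⟩
  have hSc : IsCompact S := by rw [hS]; exact hφ.2.1
  have hSB : S ⊆ B := by rw [hS]; exact hφ.2.2
  have z0 : ∀ z, z ∉ S → φ z = 0 := fun z hz => image_eq_zero_of_notMem_tsupport (by rwa [hS] at hz)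
  have cφ : Continuous φ := hφ.1.continuous
  obtain ⟨R, hR⟩ : ∃ R : ℂ → ℝ, R = fun z => (√(ρ z))⁻¹ := ⟨_, rfl⟩
  have sR : ContDiffOn ℝ ∞ R B := by
    rw [hR]
    exact (hρ.sqrt fun z hz => (ρ0 z hz).ne').inv fun z hz => (Real.sqrt_pos.2 (ρ0 z hz)).ne'
  have sR4 : ContDiffOn ℝ ∞ (fun z => R z ^ 4) B := sR.pow 4
  obtain ⟨χ, hχ⟩ : ∃ χ : ℂ → ℝ, χ = fun z => φ z * R z := ⟨_, rfl⟩
  obtain ⟨ψ, hψ⟩ : ∃ ψ : ℂ → ℝ, ψ = fun z => φ z * R z ^ 4 := ⟨_, rfl⟩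
  have Tχ : TF B χ := by rw [hχ]; exact TF.mulc hB hφ sR
  have Tψ : TF B ψ := by rw [hψ]; exact TF.mulc hB hφ sR4
  have Rn : ∀ z, 0 ≤ R z := fun z => by rw [hR]; positivity
  have χ0 : ∀ z, 0 ≤ χ z := fun z => by rw [hχ]; exact mul_nonneg (hφ0 z) (Rn z)
  have ψ0 : ∀ z, 0 ≤ ψ z := fun z => by
    rw [hψ]; exact mul_nonneg (hφ0 z) (pow_nonneg (Rn z) 4)
  obtain ⟨K3, K30, H3⟩ := L3v hB Tψ ψ0 hρ hv
  obtain ⟨K2, K20, H2⟩ := L2 hB hφ hφ0 hρ ρ0
  have sχ' : Continuous (fun z => fderiv ℝ χ z v) :=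
    ((Tχ.1.fderiv_right (m := ∞) le_rfl).clm_apply contDiff_const).continuous
  have χS : tsupport χ ⊆ S := by rw [hχ, hS]; exact tsupp_mul _ _
  have ψS : tsupport ψ ⊆ S := by rw [hψ, hS]; exact tsupp_mul _ _
  have z1 : ∀ z, z ∉ S → fderiv ℝ χ z v = 0 := fun z hz => by
    rw [fderiv_of_notMem_tsupport ℝ (fun h => hz (χS h))]; rfl
  obtain ⟨M, M1, hM⟩ := bds hSc [fun z => fderiv ℝ χ z v] (by
    simp only [List.mem_cons, List.not_mem_nil, or_false, forall_eq]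
    exact sχ'.continuousOn)
  simp only [List.mem_cons, List.not_mem_nil, or_false, forall_eq] at hM
  refine ⟨K3 + K2 + 6 * M, by positivity, fun h u hu h1 g δ hg g0 g1 hδ hge => ?_⟩
  have hp := hu.hp
  have s0 := hu.su
  have s1 := d_sm hB s0 h v
  have s2 := d_sm hB s1 h v
  have s3 := d_sm hB s2 h v
  have ce3 : ContinuousOn (e3 h u) B := e3_co hB s0
  have ce2 : ContinuousOn (e2 h u) B := e2_co hB s0
  obtain ⟨E, hE⟩ : ∃ E : ℝ, E = ∫ z in S, e3 h u z := ⟨_, rfl⟩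
  have E0 : 0 ≤ E := by rw [hE]; exact integral_nonneg fun z => e3_nonneg h u z
  have E3le : ∫ z in tsupport ψ, e3 h u z ≤ E := by
    rw [hE]; exact int_sub hSc hSB ψS ce3 ce3 (e3_nonneg h u) fun z => le_rfl
  have E2le : ∫ z in tsupport φ, e2 h u z ≤ E := by
    rw [hE, ← hS]; exact int_sub hSc hSB subset_rfl ce2 ce3 (e2_nonneg h u) (e2_le_e3 h u)
  have F3 := H3 h u hu h1
  have F2 := H2 h u hu
  have D := dir_s hB hp s0 Tχ χ0 v hg g0 g1 hδ hge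
  rw [← hS, ← hE]
  have eχ : ∀ z, φ z * (√(ρ z))⁻¹ = χ z := fun z => by rw [hχ, hR]
  simp only [eχ]
  refine D.trans (mul_le_mul_of_nonneg_left ?_ (Real.sqrt_nonneg _))
  -- the boundary term
  have q1 : ∫ z, |fderiv ℝ χ z v * d h v (d h v u) z| ≤ M * ((∫ z in S, (1 : ℝ)) + E) := by
    refine l1_bd hSc sχ'.continuousOn hM (by linarith) z1 (s2.continuousOn.mono hSB) ?_
    rw [hE]
    refine int_sub (B := B) hSc hSB subset_rfl (s2.continuousOn.pow 2) ce3 (fun z => sq_nonneg _)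
      fun z => ?_
    have := e3_ge h u hv z
    nlinarith [sq_nonneg (u z), sq_nonneg (d h v u z), sq_nonneg (d h 1 (d h v (d h v u)) z),
      sq_nonneg (d h I (d h v (d h v u)) z)]
  -- the main term
  have S0 : 0 ≤ ∫ z in S, (1 : ℝ) := integral_nonneg fun z => zero_le_one
  have cφS := cφ.continuousOn (s := S)
  have cR := sR.continuousOn.mono hSB
  have cρ := hρ.continuousOn.mono hSB
  have c3 := s3.continuousOn.mono hSB
  have c2 := s2.continuousOn.mono hSB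
  have rr : ∀ z ∈ B, 0 < √(ρ z) ∧ R z = (√(ρ z))⁻¹ ∧ ρ z = √(ρ z) ^ 2 := fun z hz =>
    ⟨Real.sqrt_pos.2 (ρ0 z hz), by rw [hR], (Real.sq_sqrt (ρ0 z hz).le).symm⟩
  have iA : Integrable (fun z => φ z * ρ z) := rint hSc (cφS.mul cρ) fun z hz => by
    rw [z0 z hz, zero_mul]
  have iψ : Integrable (fun z => ψ z * d h v (d h v (d h v u)) z ^ 2) := by
    rw [hψ]
    exact rint hSc ((cφS.mul (cR.pow 4)).mul (c3.pow 2)) fun z hz => by
      beta_reduce; rw [z0 z hz, zero_mul, zero_mul]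
  have A0 : 0 ≤ ∫ z, φ z * ρ z := integral_nonneg fun z => by
    show 0 ≤ φ z * ρ z
    by_cases hz : z ∈ B
    · exact mul_nonneg (hφ0 z) (ρ0 z hz).le
    · rw [z0 z fun h => hz (hSB h), zero_mul]
  have b0 : 0 ≤ ∫ z, ψ z * d h v (d h v (d h v u)) z ^ 2 := integral_nonneg fun z =>
    mul_nonneg (ψ0 z) (sq_nonneg _)
  have q2 : ∫ z, |χ z * d h v (d h v (d h v u)) z| ≤
      √((∫ z, φ z * ρ z) * ∫ z, ψ z * d h v (d h v (d h v u)) z ^ 2) := by
    refine cs_real A0 b0 fun t ht => ?_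
    have j1 := iA.const_mul (t / 2)
    have j2 := iψ.const_mul (1 / (2 * t))
    have j0 : Integrable (fun z => |χ z * d h v (d h v (d h v u)) z|) := by
      rw [hχ]
      exact rint hSc ((cφS.mul cR).mul c3).abs fun z hz => by
        beta_reduce; rw [z0 z hz]; simp
    rw [← integral_const_mul, ← integral_const_mul, ← integral_add j1 j2]
    refine integral_mono j0 (j1.add j2) fun z => ?_
    show |χ z * d h v (d h v (d h v u)) z| ≤
      t / 2 * (φ z * ρ z) + 1 / (2 * t) * (ψ z * d h v (d h v (d h v u)) z ^ 2)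
    rw [abs_mul, abs_of_nonneg (χ0 z)]
    by_cases hz : z ∈ B
    · obtain ⟨r0, r1, r2⟩ := rr z hz
      have e1 : χ z = φ z * R z := by rw [hχ]
      have e2 : ψ z = φ z * R z ^ 4 := by rw [hψ]
      rw [e1, e2, r1, ← sq_abs (d h v (d h v (d h v u)) z)]
      generalize |d h v (d h v (d h v u)) z| = q
      have e3 : φ z * ρ z = φ z * √(ρ z) ^ 2 := by rw [← r2]
      rw [e3]
      generalize √(ρ z) = r at *
      have e4 : t / 2 * (φ z * r ^ 2) + 1 / (2 * t) * (φ z * r⁻¹ ^ 4 * q ^ 2) -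
          φ z * r⁻¹ * q = φ z / (2 * t) * (t * r - r⁻¹ ^ 2 * q) ^ 2 := by
        field_simp
        ring
      have e5 : 0 ≤ φ z / (2 * t) * (t * r - r⁻¹ ^ 2 * q) ^ 2 := by
        have := hφ0 z
        positivity
      linarith
    · have hzS : z ∉ S := fun h => hz (hSB h)
      have e1 : χ z = 0 := by rw [hχ]; show φ z * _ = 0; rw [z0 z hzS, zero_mul]
      have e2 : ψ z = 0 := by rw [hψ]; show φ z * _ = 0; rw [z0 z hzS, zero_mul]
      rw [e1, e2, z0 z hzS]; simp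
  have q3 : ∫ z, ψ z * (ρ z * d h v (d h v u) z ^ 2) ≤
      ∫ z, φ z * ((ρ z)⁻¹ * (d h 1 (d h 1 u) z ^ 2 + d h I (d h I u) z ^ 2)) := by
    have k1 := (d_sm hB (d_sm hB s0 h 1) h 1).continuousOn.mono hSB
    have k2 := (d_sm hB (d_sm hB s0 h I) h I).continuousOn.mono hSB
    refine integral_mono ?_ ?_ fun z => ?_
    · rw [hψ]
      exact rint hSc ((cφS.mul (cR.pow 4)).mul (cρ.mul (c2.pow 2))) fun z hz => by
        beta_reduce; rw [z0 z hz, zero_mul, zero_mul]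
    · exact rint hSc (cφS.mul ((cρ.inv₀ fun z hz => (ρ0 z (hSB hz)).ne').mul
        ((k1.pow 2).add (k2.pow 2)))) fun z hz => by rw [z0 z hz, zero_mul]
    · show ψ z * (ρ z * d h v (d h v u) z ^ 2) ≤
        φ z * ((ρ z)⁻¹ * (d h 1 (d h 1 u) z ^ 2 + d h I (d h I u) z ^ 2))
      have e2 : ψ z = φ z * R z ^ 4 := by rw [hψ]
      rw [e2]
      by_cases hz : z ∈ B
      · obtain ⟨r0, r1, r2⟩ := rr z hz
        have e3 : R z ^ 4 * ρ z = (ρ z)⁻¹ := by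
          rw [r1, r2, Real.sqrt_sq r0.le]
          field_simp
        have e4 : d h v (d h v u) z ^ 2 ≤ d h 1 (d h 1 u) z ^ 2 + d h I (d h I u) z ^ 2 := by
          rcases hv with rfl | rfl
          · nlinarith [sq_nonneg (d h I (d h I u) z)]
          · nlinarith [sq_nonneg (d h 1 (d h 1 u) z)]
        have e5 : φ z * R z ^ 4 * (ρ z * d h v (d h v u) z ^ 2) =
            φ z * ((ρ z)⁻¹ * d h v (d h v u) z ^ 2) := by rw [← e3]; ring
        rw [e5]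
        exact mul_le_mul_of_nonneg_left (mul_le_mul_of_nonneg_left e4
          (inv_nonneg.2 (ρ0 z hz).le)) (hφ0 z)
      · rw [z0 z fun h => hz (hSB h)]; simp
  have hE' : 0 ≤ h * E := by positivity
  have q4 : ∫ z, ψ z * d h v (d h v (d h v u)) z ^ 2 ≤
      (∫ z, φ z * (ρ z * u z ^ 2)) + h * (K3 + K2 + 6 * M) * E := by
    have t1 : h * K3 * ∫ z in tsupport ψ, e3 h u z ≤ h * K3 * E :=
      mul_le_mul_of_nonneg_left E3le (by positivity)
    have t2 : h * K2 * ∫ z in tsupport φ, e2 h u z ≤ h * K2 * E :=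
      mul_le_mul_of_nonneg_left E2le (by positivity)
    have t3 : 0 ≤ h * (6 * M) * E := by positivity
    linarith
  have q5 := q2.trans (Real.sqrt_le_sqrt (mul_le_mul_of_nonneg_left q4 A0))
  have q6 : h * (6 * ∫ z, |fderiv ℝ χ z v * d h v (d h v u) z|) ≤
      h * (K3 + K2 + 6 * M) * ((∫ z in S, (1 : ℝ)) + E) := by
    have t1 := mul_le_mul_of_nonneg_left q1 (by positivity : 0 ≤ h * 6)
    have t2 : 0 ≤ h * (K3 + K2) * ((∫ z in S, (1 : ℝ)) + E) := by positivity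
    linarith
  linarith

end

end Pool.Agent.E8helper19.LW
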