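import Pool.Agent.E8helper19.LW.Uni2

/-!
Sequences of solutions; the eventual inequality with absolute constants.
-/

set_option autoImplicit false
open MeasureTheory Filter Topology Complex
open scoped ContDiff ENNReal

namespace Pool.Agent.E8helper19.LW

open Pool.Agent.W745.RW Pool.Agent.TH294.RS Pool.Agent.TH294.RG Pool.Agent.TH421.DF
open Pool.Agent.TH421.AC Pool.Agent.Y139.PD Pool.Agent.Results.MP_a52643_an.AbsoluteContinuity

noncomputable section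

variable {B : Set ℂ}

/-- both directions -/
theorem U1 (hB : IsOpen B) {φ ρ : ℂ → ℝ} (hφ : TF B φ) (hφ0 : ∀ z, 0 ≤ φ z)
    (hρ : ContDiffOn ℝ ∞ ρ B) (ρ0 : ∀ z ∈ B, 0 < ρ z) :
    ∃ K : ℝ, 0 ≤ K ∧ ∀ (h : ℝ) (u : ℂ → ℝ), Sol B h ρ u → h ≤ 1 → ∀ (g : ℝ → ℝ) (δ : ℝ),
      ContDiff ℝ ∞ g → (∀ x, 0 ≤ g x) → (∀ x, g x ≤ 1) → 0 < δ → (∀ x, |Pr g x| ≤ δ) →
      ∫ z, φ z * (g (u z) * (|u z| * √|u z|) * ρ z) ≤
        √δ * (42 * √((∫ z, φ z * ρ z) * ((∫ z, φ z * (ρ z * u z ^ 2)) +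
          h * K * ∫ z in tsupport φ, e3 h u z)) +
        h * K * ((∫ z in tsupport φ, (1 : ℝ)) + ∫ z in tsupport φ, e3 h u z)) := by
  obtain ⟨K1, K10, H1⟩ := U0 hB hφ hφ0 hρ ρ0 (v := 1) (Or.inl rfl)
  obtain ⟨K2, K20, H2⟩ := U0 hB hφ hφ0 hρ ρ0 (v := I) (Or.inr rfl)
  refine ⟨3 * (K1 + K2), by positivity, fun h u hu h1 g δ hg g0 g1 hδ hge => ?_⟩
  have F1 := H1 h u hu h1 g δ hg g0 g1 hδ hge
  have F2 := H2 h u hu h1 g δ hg g0 g1 hδ hge
  have hp := hu.hp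
  have s0 := hu.su
  have hSc : IsCompact (tsupport φ) := hφ.2.1
  have hSB : tsupport φ ⊆ B := hφ.2.2
  have z0 : ∀ z, z ∉ tsupport φ → φ z = 0 := fun z hz => image_eq_zero_of_notMem_tsupport hz
  have cφ : Continuous φ := hφ.1.continuous
  have cφS := cφ.continuousOn (s := tsupport φ)
  have cu : ContinuousOn u (tsupport φ) := s0.continuousOn.mono hSB
  have cg : ContinuousOn (fun z => g (u z)) (tsupport φ) := hg.continuous.comp_continuousOn cu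
  have cρ : ContinuousOn ρ (tsupport φ) := hρ.continuousOn.mono hSB
  have cR : ContinuousOn (fun z => (√(ρ z))⁻¹) (tsupport φ) :=
    (Real.continuous_sqrt.comp_continuousOn cρ).inv₀ fun z hz =>
      (Real.sqrt_pos.2 (ρ0 z (hSB hz))).ne'
  have cY : ∀ v, ContinuousOn (d h v (d h v u)) (tsupport φ) := fun v =>
    (d_sm hB (d_sm hB s0 h v) h v).continuousOn.mono hSB
  have cW : ∀ {s : ℂ → ℝ}, ContinuousOn s (tsupport φ) →
      ContinuousOn (fun z => |s z| * √|s z|) (tsupport φ) := fun hs =>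
    hs.abs.mul (Real.continuous_sqrt.comp_continuousOn hs.abs)
  have i0 : Integrable (fun z => φ z * (g (u z) * (|u z| * √|u z|) * ρ z)) :=
    rint hSc (cφS.mul ((cg.mul (cW cu)).mul cρ)) fun z hz => by rw [z0 z hz, zero_mul]
  have iv : ∀ v, Integrable (fun z => (φ z * (√(ρ z))⁻¹) * (g (u z) *
      (|d h v (d h v u) z| * √|d h v (d h v u) z|))) := fun v =>
    rint hSc ((cφS.mul cR).mul (cg.mul (cW (cY v)))) fun z hz => by
      rw [z0 z hz, zero_mul, zero_mul]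
  have tot := integral_mono i0 (((iv 1).add (iv I)).const_mul 3) (fun z => by
    show φ z * (g (u z) * (|u z| * √|u z|) * ρ z) ≤
      3 * ((φ z * (√(ρ z))⁻¹) * (g (u z) * (|d h 1 (d h 1 u) z| * √|d h 1 (d h 1 u) z|)) +
      (φ z * (√(ρ z))⁻¹) * (g (u z) * (|d h I (d h I u) z| * √|d h I (d h I u) z|)))
    by_cases hz : z ∈ B
    · have h1 := hu.eq z hz
      have h2 : |ρ z * u z| ≤ |d h 1 (d h 1 u) z| + |d h I (d h I u) z| := by
        rw [← abs_neg (ρ z * u z), ← h1]; exact abs_add_le _ _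
      have h2' := (wt_mono (abs_nonneg _) h2).trans (wt_add (abs_nonneg _) (abs_nonneg _))
      have r0 := ρ0 z hz
      have sr := Real.sqrt_pos.2 r0
      have h3 : |u z| * √|u z| * ρ z = (√(ρ z))⁻¹ * (|ρ z * u z| * √|ρ z * u z|) := by
        rw [abs_mul, abs_of_pos r0, Real.sqrt_mul r0.le]
        field_simp
      have e1 : φ z * (g (u z) * (|u z| * √|u z|) * ρ z) =
          φ z * g (u z) * (√(ρ z))⁻¹ * (|ρ z * u z| * √|ρ z * u z|) := by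
        rw [mul_assoc (g (u z)), h3]; ring
      have h4 := mul_le_mul_of_nonneg_left h2' (mul_nonneg (mul_nonneg (hφ0 z) (g0 (u z)))
        (inv_nonneg.2 sr.le))
      rw [e1]
      linarith
    · rw [z0 z fun h => hz (hSB h)]; simp)
  rw [integral_const_mul] at tot
  have ev : ∫ z, ((fun z => (φ z * (√(ρ z))⁻¹) * (g (u z) *
      (|d h 1 (d h 1 u) z| * √|d h 1 (d h 1 u) z|))) +
      fun z => (φ z * (√(ρ z))⁻¹) * (g (u z) *
        (|d h I (d h I u) z| * √|d h I (d h I u) z|))) z =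
      (∫ z, (φ z * (√(ρ z))⁻¹) * (g (u z) * (|d h 1 (d h 1 u) z| * √|d h 1 (d h 1 u) z|))) +
      ∫ z, (φ z * (√(ρ z))⁻¹) * (g (u z) * (|d h I (d h I u) z| * √|d h I (d h I u) z|)) :=
    integral_add (iv 1) (iv I)
  rw [ev] at tot
  have A0 : 0 ≤ ∫ z, φ z * ρ z := integral_nonneg fun z => by
    show 0 ≤ φ z * ρ z
    by_cases hz : z ∈ B
    · exact mul_nonneg (hφ0 z) (ρ0 z hz).le
    · rw [z0 z fun h => hz (hSB h), zero_mul]
  obtain ⟨A, hA⟩ : ∃ A : ℝ, A = ∫ z, φ z * ρ z := ⟨_, rfl⟩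
  obtain ⟨E, hE⟩ : ∃ E : ℝ, E = ∫ z in tsupport φ, e3 h u z := ⟨_, rfl⟩
  obtain ⟨L, hL⟩ : ∃ L : ℝ, L = ∫ z in tsupport φ, (1 : ℝ) := ⟨_, rfl⟩
  obtain ⟨m, hm⟩ : ∃ m : ℝ, m = ∫ z, φ z * (ρ z * u z ^ 2) := ⟨_, rfl⟩
  have E0 : 0 ≤ E := by rw [hE]; exact integral_nonneg fun z => e3_nonneg h u z
  have L0 : 0 ≤ L := by rw [hL]; exact integral_nonneg fun z => zero_le_one
  rw [← hA] at F1 F2 A0 ⊢
  rw [← hE] at F1 F2 ⊢
  rw [← hL] at F1 F2 ⊢
  rw [← hm] at F1 F2 ⊢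
  have sδ : 0 ≤ √δ := Real.sqrt_nonneg δ
  have b1 : √(A * (m + h * K1 * E)) ≤ √(A * (m + h * (3 * (K1 + K2)) * E)) := by
    refine Real.sqrt_le_sqrt (mul_le_mul_of_nonneg_left ?_ A0)
    have : 0 ≤ h * (2 * K1 + 3 * K2) * E := by positivity
    linarith
  have b2 : √(A * (m + h * K2 * E)) ≤ √(A * (m + h * (3 * (K1 + K2)) * E)) := by
    refine Real.sqrt_le_sqrt (mul_le_mul_of_nonneg_left ?_ A0)
    have : 0 ≤ h * (3 * K1 + 2 * K2) * E := by positivity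
    linarith
  have c1 := F1.trans (mul_le_mul_of_nonneg_left (add_le_add_left
    (mul_le_mul_of_nonneg_left b1 (by norm_num : (0 : ℝ) ≤ 7)) _) sδ)
  have c2 := F2.trans (mul_le_mul_of_nonneg_left (add_le_add_left
    (mul_le_mul_of_nonneg_left b2 (by norm_num : (0 : ℝ) ≤ 7)) _) sδ)
  refine tot.trans ((mul_le_mul_of_nonneg_left (add_le_add c1 c2)
    (by norm_num : (0 : ℝ) ≤ 3)).trans (le_of_eq ?_))
  ring

/-- eventually, `u n` solves the scaled equation with a bounded third order energy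
(after helper139's `seq_bd`) -/
theorem seq_bd3 {Ω : Set ℂ} {ρ : ℂ → ℝ} {lam : ℕ → ℝ} {u : ℕ → ℂ → ℝ} (H : Hyp Ω ρ lam u)
    {S : Set ℂ} (hSc : IsCompact S) (hSB : S ⊆ Ω) : ∃ (h : ℕ → ℝ) (Q : ℝ), 0 ≤ Q ∧
      Tendsto h atTop (𝓝 0) ∧ ∀ᶠ n in atTop, Sol Ω (h n) ρ (u n) ∧
        ∫ z in S, e3 (h n) (u n) z ≤ Q := by
  obtain ⟨hΩ, hρ, hρ0, hlam, hu, he, hL⟩ := H
  obtain ⟨N0, hN0⟩ := (eventually_atTop.1 (hlam.eventually_ge_atTop 1))
  obtain ⟨l, hl⟩ : ∃ l : ℕ → ℝ, ∀ n, l n = lam (n + N0) := ⟨_, fun _ => rfl⟩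
  have l1 : ∀ n, 1 ≤ l n := fun n => by rw [hl]; exact hN0 _ (Nat.le_add_left _ _)
  have ll : Tendsto l atTop atTop :=
    (hlam.comp (tendsto_add_atTop_nat N0)).congr fun n => (hl n).symm
  obtain ⟨h, hh⟩ : ∃ h : ℕ → ℝ, ∀ n, h n = (√(l n))⁻¹ := ⟨_, fun _ => rfl⟩
  have hp : ∀ n, 0 < h n := fun n => by
    rw [hh]; exact inv_pos.2 (Real.sqrt_pos.2 (lt_of_lt_of_le one_pos (l1 n)))
  have h0 : Tendsto h atTop (𝓝 0) :=
    (tendsto_inv_atTop_zero.comp (Real.tendsto_sqrt_atTop.comp ll)).congr fun n => (hh n).symm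
  have h2 : ∀ n, h n ^ 2 * l n = 1 := fun n => by
    have p : 0 < l n := lt_of_lt_of_le one_pos (l1 n)
    rw [hh, inv_pow, Real.sq_sqrt p.le, inv_mul_cancel₀ p.ne']
  obtain ⟨w, hw⟩ : ∃ w : ℕ → ℂ → ℝ, w = fun n => u (n + N0) := ⟨_, rfl⟩
  have sw : ∀ n, ContDiffOn ℝ ∞ (w n) Ω := fun n => by rw [hw]; exact hu _
  have ew : ∀ n, ∀ z ∈ Ω, h n ^ 2 * lapl (w n) z = -(ρ z * w n z) := by
    intro n z hz
    have e1 := he (n + N0) z hz
    rw [← hl] at e1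
    have e2 : lapl (w n) z = - (l n * (ρ z * w n z)) := by
      rw [hw]; show lapl (u (n + N0)) z = - (l n * (ρ z * u (n + N0) z)); linarith
    rw [e2]
    have := h2 n
    linear_combination (-(ρ z * w n z)) * this
  have lbw : LB Ω 2 (cx w) := by
    refine ⟨fun n => Complex.ofRealCLM.contDiff.comp_contDiffOn (sw n), fun K hK hKB => ?_⟩
    obtain ⟨C, hC⟩ := hL K hK hKB
    refine ⟨C, ?_⟩
    have h3 := (tendsto_add_atTop_nat N0).eventually hC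
    refine h3.mono fun n hn => ?_
    simp only [cx, Complex.norm_real, Real.norm_eq_abs, sq_abs, hw]
    exact hn
  have MKw : MK2 Ω h 3 (cx w) := by
    refine mk_sol hΩ hp h0 lbw (ρ := fun z => (ρ z : ℂ))
      (Complex.ofRealCLM.contDiff.comp_contDiffOn hρ) (c := fun _ => 1) (M := 1)
      (Eventually.of_forall fun n => by norm_num) ?_ 3
    intro n z hz
    have e1 : lap (cx w n) z = ((lapl (w n) z : ℝ) : ℂ) := lap_re hΩ (sw n) hz
    simp only [Pool.Agent.TH294.RS.hL]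
    rw [e1]
    have e2 := ew n z hz
    have e3 : ((h n ^ 2 * lapl (w n) z : ℝ) : ℂ) = ((-(ρ z * w n z) : ℝ) : ℂ) := by rw [e2]
    push_cast at e3
    simp only [cx]
    push_cast
    rw [e3]; ring
  have q1 := mk_rd hΩ sw MKw
  have sm1 : ∀ v n, ContDiffOn ℝ ∞ (rd h v w n) Ω := fun v n => rd_sm hΩ sw v n
  have q2 := mk_rd hΩ (sm1 1) q1.1
  have q3 := mk_rd hΩ (sm1 I) q1.2
  obtain ⟨A1, A10, b1⟩ := lb_re MKw.lb hSc hSB
  obtain ⟨A2, A20, b2⟩ := lb_re q1.1.lb hSc hSB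
  obtain ⟨A3, A30, b3⟩ := lb_re q1.2.lb hSc hSB
  obtain ⟨A4, A40, b4⟩ := lb_re q2.1.lb hSc hSB
  obtain ⟨A5, A50, b5⟩ := lb_re q3.2.lb hSc hSB
  obtain ⟨A6, A60, b6⟩ := lb_re q2.2.lb hSc hSB
  have sm2 : ∀ v n, ContDiffOn ℝ ∞ (rd h v (rd h v w) n) Ω := fun v n => rd_sm hΩ (sm1 v) v n
  have q4 := mk_rd hΩ (sm2 1) q2.1
  have q5 := mk_rd hΩ (sm2 I) q3.2
  obtain ⟨A7, A70, b7⟩ := lb_re q4.1.lb hSc hSB
  obtain ⟨A8, A80, b8⟩ := lb_re q4.2.lb hSc hSB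
  obtain ⟨A9, A90, b9⟩ := lb_re q5.1.lb hSc hSB
  obtain ⟨A0, A00, b0⟩ := lb_re q5.2.lb hSc hSB
  have fin : ∀ᶠ n in atTop, Sol Ω (h n) ρ (w n) ∧
      ∫ z in S, e3 (h n) (w n) z ≤ A1 + A2 + A3 + A4 + A5 + A6 + (A7 + A8) + (A9 + A0) := by
    filter_upwards [b1, b2, b3, b4, b5, b6, b7, b8, b9, b0] with n b1 b2 b3 b4 b5 b6 b7 b8 b9 b0
    refine ⟨⟨hp n, sw n, fun z hz => ?_⟩, ?_⟩
    · have e1 := rdd hΩ (h := h) sw 1 n hz
      have e2 := rdd hΩ (h := h) sw I n hz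
      have e3 := ew n z hz
      have e4 : d (h n) 1 (d (h n) 1 (w n)) z + d (h n) I (d (h n) I (w n)) z =
        h n ^ 2 * lapl (w n) z := by
        show rd h 1 (rd h 1 w) n z + rd h I (rd h I w) n z = _
        rw [e1, e2]; unfold lapl; ring
      rw [e4, e3]
    · have c0 : ∀ {F : ℂ → ℝ}, ContDiffOn ℝ ∞ F Ω → IntegrableOn (fun z => F z ^ 2) S volume :=
        fun hF => ((hF.continuousOn.mono hSB).pow 2).integrableOn_compact hSc
      have i1 := c0 (sw n)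
      have i2 := c0 (sm1 1 n)
      have i3 := c0 (sm1 I n)
      have i4 := c0 (rd_sm (h := h) hΩ (sm1 1) 1 n)
      have i5 := c0 (rd_sm (h := h) hΩ (sm1 I) I n)
      have i6 := c0 (rd_sm (h := h) hΩ (sm1 1) I n)
      have i7 := c0 (rd_sm (h := h) hΩ (sm2 1) 1 n)
      have i8 := c0 (rd_sm (h := h) hΩ (sm2 1) I n)
      have i9 := c0 (rd_sm (h := h) hΩ (sm2 I) 1 n)
      have i0 := c0 (rd_sm (h := h) hΩ (sm2 I) I n)
      have j2 : IntegrableOn (fun z => w n z ^ 2 + rd h 1 w n z ^ 2) S volume := i1.add i2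
      have j3 : IntegrableOn (fun z => w n z ^ 2 + rd h 1 w n z ^ 2 + rd h I w n z ^ 2) S
        volume := j2.add i3
      have j4 : IntegrableOn (fun z => w n z ^ 2 + rd h 1 w n z ^ 2 + rd h I w n z ^ 2 +
        rd h 1 (rd h 1 w) n z ^ 2) S volume := j3.add i4
      have j5 : IntegrableOn (fun z => w n z ^ 2 + rd h 1 w n z ^ 2 + rd h I w n z ^ 2 +
        rd h 1 (rd h 1 w) n z ^ 2 + rd h I (rd h I w) n z ^ 2) S volume := j4.add i5
      have j6 : IntegrableOn (fun z => w n z ^ 2 + rd h 1 w n z ^ 2 + rd h I w n z ^ 2 +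
        rd h 1 (rd h 1 w) n z ^ 2 + rd h I (rd h I w) n z ^ 2 + rd h I (rd h 1 w) n z ^ 2) S
        volume := j5.add i6
      have j78 : IntegrableOn (fun z => rd h 1 (rd h 1 (rd h 1 w)) n z ^ 2 +
        rd h I (rd h 1 (rd h 1 w)) n z ^ 2) S volume := i7.add i8
      have j90 : IntegrableOn (fun z => rd h 1 (rd h I (rd h I w)) n z ^ 2 +
        rd h I (rd h I (rd h I w)) n z ^ 2) S volume := i9.add i0
      have j8 : IntegrableOn (fun z => w n z ^ 2 + rd h 1 w n z ^ 2 + rd h I w n z ^ 2 +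
        rd h 1 (rd h 1 w) n z ^ 2 + rd h I (rd h I w) n z ^ 2 + rd h I (rd h 1 w) n z ^ 2 +
        (rd h 1 (rd h 1 (rd h 1 w)) n z ^ 2 + rd h I (rd h 1 (rd h 1 w)) n z ^ 2)) S
        volume := j6.add j78
      have e : ∫ z in S, e3 (h n) (w n) z = ∫ z in S, (w n z ^ 2 + rd h 1 w n z ^ 2 +
        rd h I w n z ^ 2 + rd h 1 (rd h 1 w) n z ^ 2 + rd h I (rd h I w) n z ^ 2 +
        rd h I (rd h 1 w) n z ^ 2 +
        (rd h 1 (rd h 1 (rd h 1 w)) n z ^ 2 + rd h I (rd h 1 (rd h 1 w)) n z ^ 2) +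
        (rd h 1 (rd h I (rd h I w)) n z ^ 2 + rd h I (rd h I (rd h I w)) n z ^ 2)) := rfl
      rw [e, integral_add j8 j90, integral_add j6 j78, integral_add i9 i0, integral_add i7 i8,
        integral_add j5 i6, integral_add j4 i5, integral_add j3 i4, integral_add j2 i3,
        integral_add i1 i2]
      linarith
  refine ⟨fun n => h (n - N0), A1 + A2 + A3 + A4 + A5 + A6 + (A7 + A8) + (A9 + A0),
    by positivity, ?_, ?_⟩
  · exact h0.comp (tendsto_sub_atTop_nat N0)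
  · rw [← Filter.map_add_atTop_eq_nat N0, eventually_map]
    refine fin.mono fun n hn => ?_
    beta_reduce
    rw [Nat.add_sub_cancel]
    rw [hw] at hn
    exact hn


/-- **The eventual inequality.** -/
theorem U2 {Ω : Set ℂ} {ρ : ℂ → ℝ} {lam : ℕ → ℝ} {u : ℕ → ℂ → ℝ} (H : Hyp Ω ρ lam u)
    {φ : ℂ → ℝ} (hφ : Test Ω φ) {m : ℝ} (hm : ∀ᶠ n in atTop, ∫ z, φ z * (ρ z * u n z ^ 2) ≤ m)
    {ε : ℝ} (ε0 : 0 < ε) :
    ∀ᶠ n in atTop, ∀ (g : ℝ → ℝ) (δ : ℝ),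
      ContDiff ℝ ∞ g → (∀ x, 0 ≤ g x) → (∀ x, g x ≤ 1) → 0 < δ → (∀ x, |Pr g x| ≤ δ) →
      ∫ z, φ z * (g (u n z) * (|u n z| * √|u n z|) * ρ z) ≤
        (42 * √((∫ z, φ z * ρ z) * m) + ε) * √δ := by
  obtain ⟨K, K0, HK⟩ := U1 H.oΩ (⟨hφ.1, hφ.2.1, hφ.2.2.1⟩ : TF Ω φ) hφ.2.2.2 H.sρ H.pρ
  obtain ⟨h, Q, Q0, h0, hQ⟩ := seq_bd3 H hφ.2.1 hφ.2.2.1
  obtain ⟨A, hA⟩ : ∃ A : ℝ, A = ∫ z, φ z * ρ z := ⟨_, rfl⟩
  obtain ⟨L, hL⟩ : ∃ L : ℝ, L = ∫ z in tsupport φ, (1 : ℝ) := ⟨_, rfl⟩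
  have A0 : 0 ≤ A := by
    rw [hA]
    refine integral_nonneg fun z => ?_
    show 0 ≤ φ z * ρ z
    by_cases hz : z ∈ Ω
    · exact mul_nonneg (hφ.2.2.2 z) (H.pρ z hz).le
    · rw [image_eq_zero_of_notMem_tsupport fun h => hz (hφ.2.2.1 h), zero_mul]
  have lim : Tendsto (fun n => 42 * √(A * (m + h n * K * Q)) + h n * K * (L + Q)) atTop
      (𝓝 (42 * √(A * (m + 0 * K * Q)) + 0 * K * (L + Q))) := by
    have c : Continuous fun x : ℝ => 42 * √(A * (m + x * K * Q)) + x * K * (L + Q) := by fun_prop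
    exact (c.tendsto 0).comp h0
  have lt : 42 * √(A * (m + 0 * K * Q)) + 0 * K * (L + Q) < 42 * √(A * m) + ε := by
    simp only [zero_mul, add_zero]; linarith
  filter_upwards [hm, hQ, lim.eventually_lt_const lt, h0.eventually_le_const one_pos] with n hm hQ l1 h1
  intro g δ hg g0 g1 hδ hge
  have F := HK (h n) (u n) hQ.1 h1 g δ hg g0 g1 hδ hge
  have hp := hQ.1.hp
  rw [← hA, ← hL] at F
  rw [← hA]
  refine F.trans ?_
  rw [mul_comm _ (√δ)]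
  refine mul_le_mul_of_nonneg_left (le_trans ?_ l1.le) (Real.sqrt_nonneg _)
  have E := hQ.2
  generalize ∫ z in tsupport φ, e3 (h n) (u n) z = E' at *
  have b1 : √(A * ((∫ z, φ z * (ρ z * u n z ^ 2)) + h n * K * E')) ≤
      √(A * (m + h n * K * Q)) := by
    refine Real.sqrt_le_sqrt (mul_le_mul_of_nonneg_left ?_ A0)
    have := mul_le_mul_of_nonneg_left E (by positivity : 0 ≤ h n * K)
    linarith
  have b2 : h n * K * (L + E') ≤ h n * K * (L + Q) :=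
    mul_le_mul_of_nonneg_left (by linarith) (by positivity)
  linarith

end

end Pool.Agent.E8helper19.LW
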