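import Pool.Agent.E8helper19.LW.En3

/-!
The inequality `∫ φ g(u) |u|^(3/2) dvol ≤ √δ (42 (∫ φ dvol)^(1/2) (∫ φ u² dvol)^(1/2) + o(1))`.
-/

set_option autoImplicit false
open MeasureTheory Filter Topology Complex
open scoped ContDiff ENNReal

namespace Pool.Agent.E8helper19.LW

open Pool.Agent.W745.RW Pool.Agent.TH294.RS Pool.Agent.TH294.RG Pool.Agent.TH421.DF
open Pool.Agent.TH421.AC Pool.Agent.Y139.PD

noncomputable section

variable {B : Set ℂ}

/-- one direction, with explicit constants -/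
theorem dir_s (hB : IsOpen B) {h : ℝ} (hp : 0 < h) {u : ℂ → ℝ} (su : ContDiffOn ℝ ∞ u B)
    {φ : ℂ → ℝ} (hφ : TF B φ) (hφ0 : ∀ z, 0 ≤ φ z) (v : ℂ) {g : ℝ → ℝ} {δ : ℝ}
    (hg : ContDiff ℝ ∞ g) (g0 : ∀ x, 0 ≤ g x) (g1 : ∀ x, g x ≤ 1) (hδ : 0 < δ)
    (hPδ : ∀ x, |Pr g x| ≤ δ) :
    ∫ z, φ z * (g (u z) * (|d h v (d h v u) z| * √|d h v (d h v u) z|)) ≤
      √δ * (7 * (∫ z, |φ z * d h v (d h v (d h v u)) z|) +
        h * (6 * ∫ z, |fderiv ℝ φ z v * d h v (d h v u) z|)) := by
  obtain ⟨S, hS⟩ : ∃ S : Set ℂ, S = tsupport φ := ⟨_, rfl⟩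
  have hSc : IsCompact S := by rw [hS]; exact hφ.2.1
  have hSB : S ⊆ B := by rw [hS]; exact hφ.2.2
  have z0 : ∀ z, z ∉ S → φ z = 0 := fun z hz => image_eq_zero_of_notMem_tsupport (by rwa [hS] at hz)
  have z1 : ∀ z, z ∉ S → fderiv ℝ φ z v = 0 := fun z hz => by
    rw [fderiv_of_notMem_tsupport ℝ (by rwa [hS] at hz)]; rfl
  have cφ : Continuous φ := hφ.1.continuous
  have cφ' : Continuous (fun z => fderiv ℝ φ z v) :=
    ((hφ.1.fderiv_right (m := ∞) le_rfl).clm_apply contDiff_const).continuous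
  have s1 := d_sm hB su h v
  have s2 := d_sm hB s1 h v
  have s3 := d_sm hB s2 h v
  have r0 : 0 < √δ := Real.sqrt_pos.2 hδ
  obtain ⟨s, hs⟩ : ∃ s : ℂ → ℝ, s = d h v (d h v u) := ⟨_, rfl⟩
  obtain ⟨q, hq⟩ : ∃ q : ℂ → ℝ, q = d h v (d h v (d h v u)) := ⟨_, rfl⟩
  have cs : ContinuousOn s S := by rw [hs]; exact s2.continuousOn.mono hSB
  have cq : ContinuousOn q S := by rw [hq]; exact s3.continuousOn.mono hSB
  have cu : ContinuousOn u S := su.continuousOn.mono hSB
  have cg : ContinuousOn (fun z => g (u z)) S := hg.continuous.comp_continuousOn cu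
  have iq : Integrable (fun z => |φ z * q z|) :=
    rint hSc (cφ.continuousOn.mul cq).abs fun z hz => by rw [z0 z hz]; simp
  have is' : Integrable (fun z => |fderiv ℝ φ z v * s z|) :=
    rint hSc (cφ'.continuousOn.mul cs).abs fun z hz => by rw [z1 z hz]; simp
  have is : Integrable (fun z => |φ z * s z|) :=
    rint hSc (cφ.continuousOn.mul cs).abs fun z hz => by rw [z0 z hz]; simp
  have iφ : Integrable φ := cφ.integrable_of_hasCompactSupport hφ.2.1
  have iL : Integrable (fun z => φ z * (g (u z) * (|s z| * √|s z|))) :=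
    rint hSc (cφ.continuousOn.mul (cg.mul (cs.abs.mul (Real.continuous_sqrt.comp_continuousOn cs.abs))))
      fun z hz => by rw [z0 z hz, zero_mul]
  have each : ∀ κ : ℝ, 0 < κ → ∫ z, φ z * (g (u z) * (|s z| * √|s z|)) ≤
      (h * (6 * √δ) * ∫ z, |fderiv ℝ φ z v * s z|) + (7 * √δ * ∫ z, |φ z * q z|) +
      (κ / √δ * ∫ z, |φ z * s z|) + κ * √κ * ∫ z, φ z := by
    intro κ hκ
    obtain ⟨F, hF⟩ : ∃ F : ℂ → ℝ, F = fun z => Psi δ κ (Pr g (u z)) (d h v u z)
      (d h v (d h v u) z) := ⟨_, rfl⟩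
    have sP : ContDiffOn ℝ ∞ (fun z => Pr g (u z)) B := (Pr_sm hg).comp_contDiffOn su
    have sF : ContDiffOn ℝ ∞ F B := by rw [hF]; exact Psi_smooth hδ hκ sP s1 s2
    have Fle : ∀ z, |F z| ≤ 6 * √δ * |s z| := fun z => by
      rw [hF, hs]; exact Psi_le hδ hκ (hPδ _) _ _
    obtain ⟨U, hU⟩ : ∃ U : ℂ → ℝ, U = fun z => φ z * F z := ⟨_, rfl⟩
    have sU : ContDiffOn ℝ ∞ U B := by rw [hU]; exact hφ.1.contDiffOn.mul sF
    have zU : ∀ z, z ∉ S → U z = 0 := fun z hz => by
      rw [hU]; show φ z * _ = 0; rw [z0 z hz, zero_mul]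
    have nhU : ∀ z, z ∉ S → U =ᶠ[𝓝 z] fun _ => 0 := by
      intro z hz
      filter_upwards [hSc.isClosed.isOpen_compl.mem_nhds (hz : z ∈ Sᶜ)] with w hw
      exact zU w hw
    have gU : ContDiff ℝ ∞ U := by
      refine contDiff_iff_contDiffAt.2 fun w => ?_
      by_cases hw : w ∈ B
      · exact sU.contDiffAt (hB.mem_nhds hw)
      · exact contDiffAt_const.congr_of_eventuallyEq (nhU w fun h => hw (hSB h))
    obtain ⟨iU, jU⟩ := Pool.Agent.W366.RW.int_zero U gU (HasCompactSupport.intro hSc zU) v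
    have pt : ∀ z, φ z * (g (u z) * (|s z| * √|s z|)) ≤ h * fderiv ℝ U z v +
        h * (6 * √δ) * |fderiv ℝ φ z v * s z| + 7 * √δ * |φ z * q z| + κ / √δ * |φ z * s z| +
        κ * √κ * φ z := by
      intro z
      by_cases hz : z ∈ B
      · have e1 : g (u z) * (|d h v (d h v u) z| * √|d h v (d h v u) z|) ≤
            h * fderiv ℝ (fun z => Psi δ κ (Pr g (u z)) (d h v u z) (d h v (d h v u) z)) z v +
            7 * √δ * |d h v (d h v (d h v u)) z| + κ / √δ * |d h v (d h v u) z| +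
            κ * √κ :=
          plane_pt (h := fun _ => h) hδ hκ hB (fun _ => hp) (u := fun _ => u) (fun _ => su) 0 v
            hg g0 g1 hPδ hz
        rw [← hq, ← hs] at e1
        have e2 := mul_le_mul_of_nonneg_left e1 (hφ0 z)
        have d1 : HasFDerivAt φ (fderiv ℝ φ z) z :=
          (hφ.1.differentiable (by simp) z).hasFDerivAt
        have d2 : HasFDerivAt F (fderiv ℝ F z) z := (rdA hB sF hz).hasFDerivAt
        have e3 : fderiv ℝ U z v = φ z * fderiv ℝ F z v + F z * fderiv ℝ φ z v := by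
          rw [hU]
          have e3 := congrArg (fun L : ℂ →L[ℝ] ℝ => L v) (d1.mul d2).fderiv
          refine Eq.trans e3 ?_
          simp only [add_apply, smul_apply, smul_eq_mul]
        have e4 : fderiv ℝ (fun z => Psi δ κ (Pr g (u z)) (d h v u z) (s z)) z v =
            fderiv ℝ F z v := by rw [hF, hs]
        rw [e4] at e2
        have e5 : -(h * (F z * fderiv ℝ φ z v)) ≤ h * (6 * √δ) * |fderiv ℝ φ z v * s z| := by
          refine (neg_le_abs _).trans ?_
          rw [abs_mul, abs_of_pos hp, abs_mul, abs_mul]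
          have t1 : |F z| * |fderiv ℝ φ z v| ≤ 6 * √δ * |s z| * |fderiv ℝ φ z v| :=
            mul_le_mul_of_nonneg_right (Fle z) (abs_nonneg _)
          have t2 := mul_le_mul_of_nonneg_left t1 hp.le
          linarith
        have a1 : |φ z * q z| = φ z * |q z| := by rw [abs_mul, abs_of_nonneg (hφ0 z)]
        have a2 : |φ z * s z| = φ z * |s z| := by rw [abs_mul, abs_of_nonneg (hφ0 z)]
        rw [e3, a1, a2]
        linarith
      · have hzS : z ∉ S := fun h => hz (hSB h)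
        rw [z0 z hzS, z1 z hzS, (nhU z hzS).fderiv_eq]; simp
    have k1 : Integrable (fun z => h * fderiv ℝ U z v) := iU.const_mul _
    have k2 : Integrable (fun z => h * (6 * √δ) * |fderiv ℝ φ z v * s z|) := is'.const_mul _
    have k3 : Integrable (fun z => 7 * √δ * |φ z * q z|) := iq.const_mul _
    have k4 : Integrable (fun z => κ / √δ * |φ z * s z|) := is.const_mul _
    have k5 : Integrable (fun z => κ * √κ * φ z) := iφ.const_mul _
    have k12 : Integrable (fun z => h * fderiv ℝ U z v + h * (6 * √δ) * |fderiv ℝ φ z v * s z|) :=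
      k1.add k2
    have k123 : Integrable (fun z => h * fderiv ℝ U z v + h * (6 * √δ) * |fderiv ℝ φ z v * s z| +
      7 * √δ * |φ z * q z|) := k12.add k3
    have k1234 : Integrable (fun z => h * fderiv ℝ U z v + h * (6 * √δ) * |fderiv ℝ φ z v * s z| +
      7 * √δ * |φ z * q z| + κ / √δ * |φ z * s z|) := k123.add k4
    have k : Integrable (fun z => h * fderiv ℝ U z v + h * (6 * √δ) * |fderiv ℝ φ z v * s z| +
      7 * √δ * |φ z * q z| + κ / √δ * |φ z * s z| + κ * √κ * φ z) := k1234.add k5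
    refine (integral_mono iL k pt).trans ?_
    rw [integral_add k1234 k5, integral_add k123 k4, integral_add k12 k3, integral_add k1 k2,
      integral_const_mul, integral_const_mul, integral_const_mul, integral_const_mul,
      integral_const_mul, jU, mul_zero, zero_add]
  have lim : Tendsto (fun κ : ℝ => (h * (6 * √δ) * ∫ z, |fderiv ℝ φ z v * s z|) +
      (7 * √δ * ∫ z, |φ z * q z|) + (κ / √δ * ∫ z, |φ z * s z|) + κ * √κ * ∫ z, φ z)
      (𝓝[>] 0) (𝓝 ((h * (6 * √δ) * ∫ z, |fderiv ℝ φ z v * s z|) + (7 * √δ * ∫ z, |φ z * q z|) +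
      ((0 : ℝ) / √δ * ∫ z, |φ z * s z|) + (0 : ℝ) * √(0 : ℝ) * ∫ z, φ z)) := by
    refine Tendsto.mono_left ?_ nhdsWithin_le_nhds
    refine Continuous.tendsto (f := fun κ : ℝ => (h * (6 * √δ) * ∫ z, |fderiv ℝ φ z v * s z|) +
      (7 * √δ * ∫ z, |φ z * q z|) + (κ / √δ * ∫ z, |φ z * s z|) + κ * √κ * ∫ z, φ z) ?_ 0
    fun_prop
  have fin := ge_of_tendsto lim (eventually_nhdsWithin_of_forall fun κ hκ => each κ hκ)
  rw [zero_div, zero_mul, zero_mul, zero_mul, add_zero, add_zero] at fin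
  rw [← hq, ← hs]
  linarith

/-- the Cauchy-Schwarz inequality from its linear form -/
lemma cs_real {x a b : ℝ} (ha : 0 ≤ a) (hb : 0 ≤ b)
    (H : ∀ t : ℝ, 0 < t → x ≤ t / 2 * a + 1 / (2 * t) * b) : x ≤ √(a * b) := by
  rcases ha.eq_or_lt with h | h
  · rw [← h, zero_mul, Real.sqrt_zero]
    by_contra hx
    push Not at hx
    have := H ((b + 1) / x) (by positivity)
    rw [← h, mul_zero, zero_add] at this
    have e : 1 / (2 * ((b + 1) / x)) * b = x * (b / (b + 1)) / 2 := by field_simp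
    rw [e] at this
    have h3 : b / (b + 1) ≤ 1 := by rw [div_le_one (by positivity)]; linarith
    nlinarith
  · rcases hb.eq_or_lt with h' | h'
    · rw [← h', mul_zero, Real.sqrt_zero]
      by_contra hx
      push Not at hx
      have := H (x / a) (by positivity)
      rw [← h', mul_zero, add_zero] at this
      have e : x / a / 2 * a = x / 2 := by field_simp
      rw [e] at this
      linarith
    · obtain ⟨p, hp⟩ : ∃ p, p = √a := ⟨_, rfl⟩
      obtain ⟨r, hr⟩ : ∃ r, r = √b := ⟨_, rfl⟩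
      have p0 : 0 < p := by rw [hp]; positivity
      have r0 : 0 < r := by rw [hr]; positivity
      have pp : p ^ 2 = a := by rw [hp, Real.sq_sqrt ha]
      have rr : r ^ 2 = b := by rw [hr, Real.sq_sqrt hb]
      have := H (r / p) (by positivity)
      rw [Real.sqrt_mul ha, ← hp, ← hr]
      have e : r / p / 2 * a + 1 / (2 * (r / p)) * b = p * r := by
        rw [← pp, ← rr]; field_simp; ring
      rw [e] at this
      exact this

end

end Pool.Agent.E8helper19.LW
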